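import Mathlib

set_option autoImplicit false

namespace Pool.Agent.H504R2

/-- for a prime `r` there is a natural number whose powers `g^f`, `0<f<r-1`, are not `1` mod `r` -/
lemma exists_prim_root (r : ℕ) (hr : r.Prime) :
    ∃ g : ℕ, Nat.Coprime g r ∧ ∀ f, 0 < f → f < r - 1 → ¬ (g ^ f ≡ 1 [MOD r]) := by
  haveI : Fact r.Prime := ⟨hr⟩
  obtain ⟨u, hu⟩ := IsCyclic.exists_generator (α := (ZMod r)ˣ)
  have ho : orderOf u = r - 1 := by
    rw [orderOf_eq_card_of_forall_mem_zpowers hu, Nat.card_eq_fintype_card, ZMod.card_units]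
  refine ⟨(u : ZMod r).val, ?_, ?_⟩
  · exact ZMod.val_coe_unit_coprime u
  · intro f hf0 hf1 h
    have h2 : ((u : ZMod r)) ^ f = 1 := by
      have := (ZMod.natCast_eq_natCast_iff _ _ _).2 h
      simpa using this
    have h3 : u ^ f = 1 := by
      ext; simpa using h2
    have := orderOf_dvd_of_pow_eq_one h3
    have := Nat.le_of_dvd hf0 this
    omega

theorem exists_good_prime (D d : ℕ) (hd : 2 ≤ d) (h : ∀ r : ℕ, r.Prime → r ∣ d → D + 1 < r) (M : ℕ) :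
    ∃ p : ℕ, M < p ∧ p.Prime ∧ Nat.Coprime p d ∧ ∀ f, 1 ≤ f → f ≤ D → Nat.Coprime d (p ^ f - 1) := by
  classical
  have hch : ∀ r : ℕ, ∃ g : ℕ, r.Prime → Nat.Coprime g r ∧ ∀ f, 0 < f → f < r - 1 → ¬ (g ^ f ≡ 1 [MOD r]) := by
    intro r
    by_cases hr : r.Prime
    · obtain ⟨g, hg⟩ := exists_prim_root r hr
      exact ⟨g, fun _ => hg⟩
    · exact ⟨0, fun h => absurd h hr⟩
  choose g hg using hch
  have hs : ∀ i ∈ d.primeFactors, (fun i : ℕ => i) i ≠ 0 := fun i hi =>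
    (Nat.prime_of_mem_primeFactors hi).ne_zero
  have hpp : Set.Pairwise (d.primeFactors : Set ℕ) (Function.onFun Nat.Coprime (fun i : ℕ => i)) := by
    intro a ha b hb hab
    exact (Nat.coprime_primes (Nat.prime_of_mem_primeFactors ha) (Nat.prime_of_mem_primeFactors hb)).2 hab
  obtain ⟨k, hk⟩ := Nat.chineseRemainderOfFinset g (fun i => i) d.primeFactors hs hpp
  have hkd : Nat.Coprime k d := by
    rw [Nat.coprime_iff_gcd_eq_one]
    by_contra hne
    obtain ⟨r, hr, hrd⟩ := Nat.exists_prime_and_dvd hne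
    have h1 : r ∣ d := hrd.trans (Nat.gcd_dvd_right _ _)
    have h2 : r ∣ k := hrd.trans (Nat.gcd_dvd_left _ _)
    have h3 := hk r (Nat.mem_primeFactors.2 ⟨hr, h1, by omega⟩)
    have h4 : r ∣ g r := by
      have : k ≡ g r [MOD r] := h3
      exact (Nat.ModEq.dvd_iff this (dvd_refl r)).1 h2
    have h5 := (hg r hr).1
    have := Nat.Coprime.eq_one_of_dvd h5.symm h4
    exact hr.one_lt.ne' this
  have hd0 : NeZero d := ⟨by omega⟩
  have hunit : IsUnit (k : ZMod d) := (ZMod.isUnit_iff_coprime k d).2 hkd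
  obtain ⟨p, hpM, hp, hpk⟩ := Nat.forall_exists_prime_gt_and_eq_mod hunit M
  have hpk' : p ≡ k [MOD d] := (ZMod.natCast_eq_natCast_iff _ _ _).1 hpk
  refine ⟨p, hpM, hp, ?_, ?_⟩
  · exact (Nat.Coprime.symm ((Nat.ModEq.gcd_eq hpk').trans hkd)).symm
  · intro f hf1 hfD
    rw [Nat.coprime_iff_gcd_eq_one]
    by_contra hne
    obtain ⟨r, hr, hrd⟩ := Nat.exists_prime_and_dvd hne
    have h1 : r ∣ d := hrd.trans (Nat.gcd_dvd_left _ _)
    have h2 : r ∣ p ^ f - 1 := hrd.trans (Nat.gcd_dvd_right _ _)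
    have h3 : k ≡ g r [MOD r] := hk r (Nat.mem_primeFactors.2 ⟨hr, h1, by omega⟩)
    have h4 : p ≡ g r [MOD r] := (hpk'.of_dvd h1).trans h3
    have h5 : p ^ f ≡ g r ^ f [MOD r] := h4.pow f
    have h6 : p ^ f ≡ 1 [MOD r] :=
      ((Nat.modEq_iff_dvd' (Nat.one_le_pow _ _ hp.pos)).2 h2).symm
    have h7 := h r hr h1
    exact (hg r hr).2 f (by omega) (by omega) (h5.symm.trans h6)

/-- combining the information coming from two primes -/
theorem dvd_of_two_primes {n T1 T2 p1 p2 E1 E2 : ℕ} (hp1 : p1.Prime) (hp2 : p2.Prime) (hne : p1 ≠ p2)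
    (h1 : n ∣ T1 * p1 ^ E1) (h2 : n ∣ T2 * p2 ^ E2) : n ∣ T1 * T2 := by
  have h3 : n ∣ (T1 * p1 ^ E1) * T2 := h1.mul_right _
  have h4 : n ∣ (T1 * p2 ^ E2) * T2 := by
    have : (T1 * p2 ^ E2) * T2 = T1 * (T2 * p2 ^ E2) := by ring
    rw [this]; exact h2.mul_left _
  have hc : Nat.Coprime (p1 ^ E1) (p2 ^ E2) := Nat.Coprime.pow _ _ ((Nat.coprime_primes hp1 hp2).2 hne)
  have h5 : n ∣ Nat.gcd ((T1 * T2) * p1 ^ E1) ((T1 * T2) * p2 ^ E2) := by
    apply Nat.dvd_gcd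
    · convert h3 using 1; ring
    · convert h4 using 1; ring
  rw [Nat.gcd_mul_left, Nat.coprime_iff_gcd_eq_one.1 hc, mul_one] at h5
  exact h5

end Pool.Agent.H504R2
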