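import Mathlib

set_option autoImplicit false

open Finset MvPolynomial

namespace Pool.Agent.H504R2

variable {K : Type} [Field K]

/-- dehomogenisation -/
noncomputable def dehom (G : MvPolynomial (Fin 2) K) : Polynomial K := aeval ![Polynomial.X, 1] G

lemma dehom_eq (G : MvPolynomial (Fin 2) K) :
    dehom G = ∑ d ∈ G.support, Polynomial.C (coeff d G) * Polynomial.X ^ (d 0) := by
  unfold dehom
  rw [aeval_def, eval₂_eq']
  apply Finset.sum_congr rfl
  intro d _
  simp [Fin.prod_univ_two]

lemma dehom_aeval {L : Type} [Field L] [Algebra K L] (G : MvPolynomial (Fin 2) K) (t : L) :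
    Polynomial.aeval t (dehom G) = aeval ![t, 1] G := by
  unfold dehom
  have : (Polynomial.aeval t : Polynomial K →ₐ[K] L).comp (aeval ![Polynomial.X, 1]) =
      (aeval ![t, 1] : MvPolynomial (Fin 2) K →ₐ[K] L) := by
    apply MvPolynomial.algHom_ext
    intro i
    fin_cases i <;> simp
  rw [← this]; rfl

lemma dehom_eval (G : MvPolynomial (Fin 2) K) (t : K) :
    (dehom G).eval t = eval ![t, 1] G := by
  have := dehom_aeval G t
  rw [Polynomial.coe_aeval_eq_eval] at this
  rw [this]
  exact RingHom.congr_fun (MvPolynomial.coe_aeval_eq_eval _) _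

lemma hom_deg {G : MvPolynomial (Fin 2) K} {e : ℕ} (hG : G.IsHomogeneous e) {d : Fin 2 →₀ ℕ}
    (hd : d ∈ G.support) : d 0 + d 1 = e := by
  have h := hG (mem_support_iff.1 hd)
  rw [← h]
  simp [Finsupp.weight_apply, Finsupp.sum_fintype, Fin.sum_univ_two]

lemma dehom_natDegree {G : MvPolynomial (Fin 2) K} {e : ℕ} (hG : G.IsHomogeneous e) :
    (dehom G).natDegree ≤ e := by
  rw [dehom_eq]
  apply Polynomial.natDegree_sum_le_of_forall_le
  intro d hd
  have := hom_deg hG hd
  exact (Polynomial.natDegree_C_mul_X_pow_le _ _).trans (by omega)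

lemma dehom_coeff {G : MvPolynomial (Fin 2) K} {e : ℕ} (hG : G.IsHomogeneous e) :
    (dehom G).coeff e = eval ![1, 0] G := by
  rw [dehom_eq, MvPolynomial.eval_eq', Polynomial.finsetSum_coeff]
  apply Finset.sum_congr rfl
  intro d hd
  have := hom_deg hG hd
  rw [Polynomial.coeff_C_mul, Polynomial.coeff_X_pow, Fin.prod_univ_two]
  simp only [Matrix.cons_val_zero, Matrix.cons_val_one, one_pow, one_mul]
  by_cases h : d 1 = 0
  · rw [h, if_pos (by omega), pow_zero]
  · rw [if_neg (by omega), zero_pow h]

lemma hom_eval_smul {L : Type} [Field L] [Algebra K L] {G : MvPolynomial (Fin 2) K} {e : ℕ}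
    (hG : G.IsHomogeneous e) (c : L) (x : Fin 2 → L) : aeval (c • x) G = c ^ e * aeval x G := by
  rw [aeval_def, aeval_def, eval₂_eq', eval₂_eq', Finset.mul_sum]
  apply Finset.sum_congr rfl
  intro d hd
  have := hom_deg hG hd
  rw [Fin.prod_univ_two, Fin.prod_univ_two, ← this]
  simp only [Pi.smul_apply, smul_eq_mul]
  ring

/-- a morphism of degree `e ≥ 2` has at most `e + 2` fixed points -/
theorem count_fixed {e : ℕ} (he : 2 ≤ e) {G : Fin 2 → MvPolynomial (Fin 2) K}
    (hG : ∀ i, (G i).IsHomogeneous e)
    (hz : ∀ x : Fin 2 → AlgebraicClosure K, (∀ i, aeval x (G i) = 0) → x = 0)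
    (S : Finset (Fin 2 → K)) (hS0 : ∀ x ∈ S, x ≠ 0)
    (hSp : ∀ x ∈ S, ∀ y ∈ S, ∀ c : K, x = c • y → x = y)
    (hfix : ∀ x ∈ S, ∃ c : K, (fun i => eval x (G i)) = c • x) : S.card ≤ e + 2 := by
  classical
  set Q : Polynomial K := dehom (G 0) - Polynomial.X * dehom (G 1) with hQ
  have hQ0 : Q ≠ 0 := by
    intro h0
    have h1 : dehom (G 0) = Polynomial.X * dehom (G 1) := sub_eq_zero.1 h0
    by_cases hdeg : (dehom (G 1)).natDegree = 0
    · -- constant case
      have h2 : (dehom (G 1)).coeff e = 0 := Polynomial.coeff_eq_zero_of_natDegree_lt (by omega)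
      have h3 : (dehom (G 0)).coeff e = 0 := by
        rw [h1]
        obtain ⟨e', rfl⟩ : ∃ e', e = e' + 1 := ⟨e - 1, by omega⟩
        rw [Polynomial.coeff_X_mul]
        exact Polynomial.coeff_eq_zero_of_natDegree_lt (by omega)
      rw [dehom_coeff (hG 1)] at h2
      rw [dehom_coeff (hG 0)] at h3
      have h4 : ∀ i, eval ![(1 : K), 0] (G i) = 0 := by
        intro i; fin_cases i
        · exact h3
        · exact h2
      have h5 := hz (fun i => algebraMap K (AlgebraicClosure K) (![(1 : K), 0] i)) (by
        intro i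
        have h6 := h4 i
        rw [← MvPolynomial.coe_aeval_eq_eval] at h6
        have h7 : aeval (fun i => algebraMap K (AlgebraicClosure K) (![(1 : K), 0] i)) (G i) =
            algebraMap K (AlgebraicClosure K) (aeval ![(1 : K), 0] (G i)) :=
          MvPolynomial.aeval_algebraMap_apply _ _ _
        rw [h7]
        have h8 : aeval ![(1 : K), 0] (G i) = 0 := h6
        rw [h8, map_zero])
      have := congrFun h5 0
      simp at this
    · have hd1 : (dehom (G 1)).degree ≠ 0 := by
        intro h
        apply hdeg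
        exact Polynomial.natDegree_eq_of_degree_eq_some h
      obtain ⟨α, hα⟩ := IsAlgClosed.exists_aeval_eq_zero (AlgebraicClosure K) (dehom (G 1)) hd1
      have h2 : aeval ![α, 1] (G 1) = 0 := by rw [← dehom_aeval]; exact hα
      have h3 : aeval ![α, 1] (G 0) = 0 := by
        rw [← dehom_aeval, h1, map_mul, hα, mul_zero]
      have h5 := hz ![α, 1] (by
        intro i; fin_cases i
        · exact h3
        · exact h2)
      have := congrFun h5 1
      simp at this
  have hQdeg : Q.natDegree ≤ e + 1 := by
    rw [hQ]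
    refine (Polynomial.natDegree_sub_le _ _).trans (max_le ?_ ?_)
    · exact (dehom_natDegree (hG 0)).trans (by omega)
    · refine (Polynomial.natDegree_mul_le).trans ?_
      have := dehom_natDegree (hG 1)
      have h1 : (Polynomial.X : Polynomial K).natDegree ≤ 1 := Polynomial.natDegree_X_le
      omega
  -- split according to the second coordinate
  have hsplit := Finset.card_filter_add_card_filter_not (s := S) (fun x => x 1 = 0)
  have hA : (S.filter fun x => x 1 = 0).card ≤ 1 := by
    rw [Finset.card_le_one]
    intro x hx y hy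
    rw [mem_filter] at hx hy
    have hy0 : y 0 ≠ 0 := by
      intro h
      apply hS0 y hy.1
      ext i; fin_cases i
      · exact h
      · exact hy.2
    apply hSp x hx.1 y hy.1 (x 0 / y 0)
    ext i; fin_cases i
    · simp [hy0]
    · simp [hx.2, hy.2]
  have hB : (S.filter fun x => ¬ x 1 = 0).card ≤ e + 1 := by
    have h1 : ∀ x ∈ S.filter (fun x => ¬ x 1 = 0), x 0 / x 1 ∈ Q.roots.toFinset := by
      intro x hx
      rw [mem_filter] at hx
      obtain ⟨c, hc⟩ := hfix x hx.1
      rw [Multiset.mem_toFinset, Polynomial.mem_roots hQ0, Polynomial.IsRoot, hQ, Polynomial.eval_sub,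
        Polynomial.eval_mul, Polynomial.eval_X, dehom_eval, dehom_eval]
      have hx1 := hx.2
      have h2 : ![x 0 / x 1, 1] = (x 1)⁻¹ • x := by
        ext i; fin_cases i
        · simp; field_simp
        · simp [hx1]
      have h3 : ∀ i, eval ((x 1)⁻¹ • x) (G i) = (x 1)⁻¹ ^ e * eval x (G i) := by
        intro i
        have := hom_eval_smul (hG i) (x 1)⁻¹ x
        simpa [MvPolynomial.coe_aeval_eq_eval] using this
      have h4 : ∀ i, eval x (G i) = c * x i := fun i => congrFun hc i
      rw [h2, h3, h3, h4, h4]
      field_simp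
      ring
    calc (S.filter fun x => ¬ x 1 = 0).card
        = ((S.filter fun x => ¬ x 1 = 0).image fun x => x 0 / x 1).card := by
          rw [card_image_of_injOn]
          intro x hx y hy hxy
          rw [mem_coe, mem_filter] at hx hy
          have hx1 := hx.2
          have hy1 := hy.2
          simp only at hxy
          apply hSp x hx.1 y hy.1 (x 1 / y 1)
          rw [div_eq_div_iff hx1 hy1] at hxy
          ext i; fin_cases i
          · simp only [Fin.zero_eta, Pi.smul_apply, smul_eq_mul]
            field_simp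
            rw [hxy]; ring
          · simp [hy1]
      _ ≤ Q.roots.toFinset.card := by
          apply card_le_card
          intro t ht
          rw [mem_image] at ht
          obtain ⟨x, hx, rfl⟩ := ht
          exact h1 x hx
      _ ≤ Q.roots.card := Multiset.toFinset_card_le _
      _ ≤ Q.natDegree := Polynomial.card_roots' _
      _ ≤ e + 1 := hQdeg
  omega

end Pool.Agent.H504R2
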