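import Pool.Agent.H504R2.Main
import Pool.Agent.H504R2.Primes
import Pool.Agent.H504R2.Count

set_option autoImplicit false
set_option linter.unusedSectionVars false
set_option linter.unusedVariables false

open Finset
open scoped WithZero

namespace Pool.Agent.H504R2

variable {K : Type} [Field K]

/-- one stage: a power map followed by a linear map -/
def stage (m : ℕ) (A : Matrix (Fin 2) (Fin 2) K) (x : Fin 2 → K) : Fin 2 → K :=
  A.mulVec fun i => x i ^ m

/-- run the stages one after the other -/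
def run (m : ℕ → ℕ) (A : ℕ → Matrix (Fin 2) (Fin 2) K) (x : Fin 2 → K) : ℕ → Fin 2 → K
  | 0 => x
  | t + 1 => stage (m t) (A t) (run m A x t)

/-- `F` is a composition of stages whose exponents have product `d` -/
def Chain (d : ℕ) (F : (Fin 2 → K) → Fin 2 → K) : Prop :=
  ∃ (k : ℕ) (m : ℕ → ℕ) (A : ℕ → Matrix (Fin 2) (Fin 2) K), 0 < k ∧ (∀ t, 1 ≤ m t) ∧
    (∀ t, (A t).det ≠ 0) ∧ (∏ t ∈ range k, m t = d) ∧ ∀ x, F x = run m A x k

lemma run_congr {m m' : ℕ → ℕ} {A A' : ℕ → Matrix (Fin 2) (Fin 2) K} (x : Fin 2 → K) (k : ℕ)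
    (hm : ∀ t < k, m t = m' t) (hA : ∀ t < k, A t = A' t) : run m A x k = run m' A' x k := by
  induction k with
  | zero => rfl
  | succ k ih =>
    unfold run
    rw [ih (fun t ht => hm t (by omega)) (fun t ht => hA t (by omega)), hm k (by omega), hA k (by omega)]

lemma run_add (m : ℕ → ℕ) (A : ℕ → Matrix (Fin 2) (Fin 2) K) (x : Fin 2 → K) (a b : ℕ) :
    run m A x (a + b) = run (fun t => m (a + t)) (fun t => A (a + t)) (run m A x a) b := by
  induction b with
  | zero => rfl
  | succ b ih =>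
    rw [← add_assoc]
    unfold run
    rw [ih]

theorem Chain.comp {d e : ℕ} {F G : (Fin 2 → K) → Fin 2 → K} (hF : Chain d F) (hG : Chain e G) :
    Chain (e * d) (fun x => F (G x)) := by
  obtain ⟨k1, m1, A1, hk1, hm1, hA1, hd1, hF⟩ := hF
  obtain ⟨k2, m2, A2, hk2, hm2, hA2, hd2, hG⟩ := hG
  refine ⟨k2 + k1, fun t => if t < k2 then m2 t else m1 (t - k2),
    fun t => if t < k2 then A2 t else A1 (t - k2), by omega, ?_, ?_, ?_, ?_⟩
  · intro t
    by_cases h : t < k2
    · simp only [h, if_true]; exact hm2 t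
    · simp only [h, if_false]; exact hm1 _
  · intro t
    by_cases h : t < k2
    · simp only [h, if_true]; exact hA2 t
    · simp only [h, if_false]; exact hA1 _
  · rw [Finset.prod_range_add]
    congr 1
    · rw [← hd2]
      apply Finset.prod_congr rfl
      intro t ht
      rw [mem_range] at ht
      simp only [ht, if_true]
    · rw [← hd1]
      apply Finset.prod_congr rfl
      intro t ht
      have : ¬ k2 + t < k2 := by omega
      simp only [this, if_false]
      congr 1
      omega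
  · intro x
    show F (G x) = _
    rw [run_add, hF, hG]
    have e1 : run (fun t => if t < k2 then m2 t else m1 (t - k2))
        (fun t => if t < k2 then A2 t else A1 (t - k2)) x k2 = run m2 A2 x k2 := by
      apply run_congr
      · intro t ht; simp only [ht, if_true]
      · intro t ht; simp only [ht, if_true]
    rw [e1]
    apply run_congr
    · intro t ht
      have : ¬ k2 + t < k2 := by omega
      simp only [this, if_false]
      congr 1
      omega
    · intro t ht
      have : ¬ k2 + t < k2 := by omega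
      simp only [this, if_false]
      congr 1
      omega

lemma br_stage (m : ℕ) (A : Matrix (Fin 2) (Fin 2) K) (x y : Fin 2 → K) :
    br (stage m A x) (stage m A y) = A.det * hh m x y * br x y := by
  have h1 : hh m x y * br x y = x 0 ^ m * y 1 ^ m - x 1 ^ m * y 0 ^ m := by
    unfold hh br
    rw [mul_comm, gs_mul, mul_pow, mul_pow]
  rw [mul_assoc, h1, Matrix.det_fin_two]
  unfold br stage
  simp only [Matrix.mulVec, dotProduct, Fin.sum_univ_two]
  ring

lemma stage_smul (m : ℕ) (A : Matrix (Fin 2) (Fin 2) K) (c : K) (x : Fin 2 → K) :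
    stage m A (c • x) = c ^ m • stage m A x := by
  unfold stage
  rw [← Matrix.mulVec_smul]
  congr 1
  ext i
  simp [mul_pow]

lemma stage_ne {m : ℕ} {A : Matrix (Fin 2) (Fin 2) K} (hA : A.det ≠ 0) {x : Fin 2 → K} (hx : x ≠ 0) :
    stage m A x ≠ 0 := by
  intro h
  have h1 := Matrix.eq_zero_of_mulVec_eq_zero hA h
  apply hx
  ext i
  exact eq_zero_of_pow_eq_zero (congrFun h1 i)

lemma br_eq_zero_iff {x y : Fin 2 → K} (hx : x ≠ 0) (hy : y ≠ 0) :
    br x y = 0 ↔ ∃ c : K, c ≠ 0 ∧ x = c • y := by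
  constructor
  · intro h
    unfold br at h
    have h' : x 0 * y 1 = x 1 * y 0 := sub_eq_zero.1 h
    by_cases hy0 : y 0 = 0
    · have hy1 : y 1 ≠ 0 := by
        intro hy1; apply hy; ext i; fin_cases i
        · exact hy0
        · exact hy1
      have hx0 : x 0 = 0 := by
        rw [hy0, mul_zero] at h'
        exact (mul_eq_zero.1 h').resolve_right hy1
      have hx1 : x 1 ≠ 0 := by
        intro hx1; apply hx; ext i; fin_cases i
        · exact hx0
        · exact hx1
      refine ⟨x 1 / y 1, div_ne_zero hx1 hy1, ?_⟩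
      ext i; fin_cases i
      · simp [hx0, hy0]
      · simp [hy1]
    · have hx0 : x 0 ≠ 0 := by
        intro hx0
        rw [hx0, zero_mul] at h'
        have hx1 : x 1 = 0 := (mul_eq_zero.1 h'.symm).resolve_right hy0
        apply hx; ext i; fin_cases i
        · exact hx0
        · exact hx1
      refine ⟨x 0 / y 0, div_ne_zero hx0 hy0, ?_⟩
      ext i; fin_cases i
      · simp [hy0]
      · simp only [Fin.mk_one, Pi.smul_apply, smul_eq_mul]
        field_simp
        exact h'.symm
  · rintro ⟨c, -, rfl⟩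
    unfold br
    simp only [Pi.smul_apply, smul_eq_mul]; ring

section orbit

variable {v : Valuation K ℤᵐ⁰} {p q : ℕ}

lemma stage_inj (hv : IsPlace v p q) {m : ℕ} (hm1 : 1 ≤ m) (hmp : Nat.Coprime m p)
    (hmq : Nat.Coprime m (q - 1)) {A : Matrix (Fin 2) (Fin 2) K} (hA : A.det ≠ 0) {x y : Fin 2 → K}
    (h : br x y ≠ 0) : br (stage m A x) (stage m A y) ≠ 0 := by
  rw [br_stage]
  refine mul_ne_zero (mul_ne_zero hA ?_) h
  unfold hh
  rw [← Valuation.ne_zero_iff v, v_gs hv hm1 hmp hmq]
  apply pow_ne_zero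
  have h1 : v (br x y) ≤ mu v x y := br_le_mu x y
  have h2 : 0 < v (br x y) := zero_lt_iff.2 ((Valuation.ne_zero_iff v).2 h)
  exact (lt_of_lt_of_le h2 h1).ne'

variable {k : ℕ} {m : ℕ → ℕ} {A : ℕ → Matrix (Fin 2) (Fin 2) K}

lemma run_ne (hA : ∀ t, (A t).det ≠ 0) {x : Fin 2 → K} (hx : x ≠ 0) (t : ℕ) : run m A x t ≠ 0 := by
  induction t with
  | zero => exact hx
  | succ t ih => exact stage_ne (hA t) ih

lemma run_inj (hv : IsPlace v p q) (hm1 : ∀ t, 1 ≤ m t) (hmp : ∀ t < k, Nat.Coprime (m t) p)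
    (hmq : ∀ t < k, Nat.Coprime (m t) (q - 1)) (hA : ∀ t, (A t).det ≠ 0) {x y : Fin 2 → K} :
    ∀ t ≤ k, (br (run m A x t) (run m A y t) = 0 ↔ br x y = 0) := by
  intro t ht
  induction t with
  | zero => exact Iff.rfl
  | succ t ih =>
    rw [← ih (by omega)]
    constructor
    · intro h
      by_contra hne
      exact stage_inj hv (hm1 t) (hmp t (by omega)) (hmq t (by omega)) (hA t) hne h
    · intro h
      show br (stage (m t) (A t) (run m A x t)) (stage (m t) (A t) (run m A y t)) = 0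
      rw [br_stage, h, mul_zero]

/-- the whole theory for one periodic point -/
theorem period_dvd (hv : IsPlace v p q) (hp : p.Prime) (hk : 0 < k) (hm1 : ∀ t, 1 ≤ m t)
    (hmp : ∀ t < k, Nat.Coprime (m t) p) (hmq : ∀ t < k, Nat.Coprime (m t) (q - 1))
    (hA : ∀ t, (A t).det ≠ 0) {κ : ℕ} (hκ : ((range k).filter fun t => 2 ≤ m t).card ≤ κ)
    {F : (Fin 2 → K) → Fin 2 → K} (hF : ∀ x, F x = run m A x k) {x : Fin 2 → K} (hx : x ≠ 0) {n : ℕ}
    (hn : 0 < n) (hper : br (F^[n] x) x = 0) (hmin : ∀ n', 0 < n' → n' < n → br (F^[n'] x) x ≠ 0) :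
    ∃ M E : ℕ, 1 ≤ M ∧ M ≤ (q + 1) * q ^ (2 * κ + 1) ∧ n ∣ M * p ^ E := by
  classical
  have hFne : ∀ y : Fin 2 → K, y ≠ 0 → F y ≠ 0 := fun y hy => by rw [hF]; exact run_ne hA hy k
  have hFit : ∀ i, F^[i] x ≠ 0 := by
    intro i
    induction i with
    | zero => exact hx
    | succ i ih => rw [Function.iterate_succ_apply']; exact hFne _ ih
  have hFbr : ∀ y z : Fin 2 → K, br (F y) (F z) = 0 ↔ br y z = 0 := by
    intro y z
    rw [hF, hF]
    exact run_inj hv hm1 hmp hmq hA k le_rfl
  have hEs : ∀ s i j, br (F^[i + s] x) (F^[j + s] x) = 0 ↔ br (F^[i] x) (F^[j] x) = 0 := by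
    intro s i j
    induction s with
    | zero => rfl
    | succ s ih =>
      rw [← add_assoc, ← add_assoc, Function.iterate_succ_apply', Function.iterate_succ_apply', hFbr]
      exact ih
  have hEtrans : ∀ i j l, br (F^[i] x) (F^[j] x) = 0 → br (F^[j] x) (F^[l] x) = 0 →
      br (F^[i] x) (F^[l] x) = 0 := by
    intro i j l h1 h2
    rw [br_eq_zero_iff (hFit _) (hFit _)] at h1 h2 ⊢
    obtain ⟨c, hc, h1⟩ := h1
    obtain ⟨d, hd, h2⟩ := h2
    exact ⟨c * d, mul_ne_zero hc hd, by rw [h1, h2, smul_smul]⟩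
  have hEsymm : ∀ i j, br (F^[i] x) (F^[j] x) = 0 → br (F^[j] x) (F^[i] x) = 0 := by
    intro i j h
    rw [br_comm, h, neg_zero]
  have hEn : ∀ a, br (F^[a + n] x) (F^[a] x) = 0 := by
    intro a
    have := (hEs a n 0).2 hper
    rwa [zero_add, add_comm n a] at this
  have hEmul : ∀ s a, br (F^[a + n * s] x) (F^[a] x) = 0 := by
    intro s a
    induction s with
    | zero => rw [mul_zero, add_zero]; exact br_self _
    | succ s ih =>
      rw [show a + n * (s + 1) = a + n * s + n by ring]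
      exact hEtrans _ _ _ (hEn _) ih
  have hEmod : ∀ a, br (F^[a] x) (F^[a % n] x) = 0 := by
    intro a
    have := hEmul (a / n) (a % n)
    rwa [Nat.mod_add_div] at this
  have hdist : ∀ i j, br (F^[i] x) (F^[j] x) = 0 ↔ i ≡ j [MOD n] := by
    have key : ∀ a b, a < n → b < n → a < b → br (F^[a] x) (F^[b] x) ≠ 0 := by
      intro a b ha hb hab h
      have h1 : br (F^[(b - a) + a] x) (F^[0 + a] x) = 0 := by
        rw [Nat.sub_add_cancel hab.le, zero_add]
        exact hEsymm _ _ h
      rw [hEs] at h1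
      exact hmin (b - a) (by omega) (by omega) h1
    intro i j
    constructor
    · intro h
      have h1 : br (F^[i % n] x) (F^[j % n] x) = 0 :=
        hEtrans _ _ _ (hEsymm _ _ (hEmod i)) (hEtrans _ _ _ h (hEmod j))
      have hi := Nat.mod_lt i hn
      have hj := Nat.mod_lt j hn
      rcases lt_trichotomy (i % n) (j % n) with h2 | h2 | h2
      · exact absurd h1 (key _ _ hi hj h2)
      · exact h2
      · exact absurd (hEsymm _ _ h1) (key _ _ hj hi h2)
    · intro h
      have h2 : i % n = j % n := h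
      have h1 := hEmod i
      rw [h2] at h1
      exact hEtrans _ _ _ h1 (hEsymm _ _ (hEmod j))
  -- the periodic sequence of stages
  set m' : ℕ → ℕ := fun t => m (t % k) with hm'
  set A' : ℕ → Matrix (Fin 2) (Fin 2) K := fun t => A (t % k) with hA'
  have hA'd : ∀ t, (A' t).det ≠ 0 := fun t => hA _
  have hrunr : ∀ i r, r ≤ k → run m' A' x (i * k + r) = run m A (run m' A' x (i * k)) r := by
    intro i r hr
    rw [run_add]
    apply run_congr
    · intro t ht
      simp only [hm']
      congr 1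
      rw [Nat.mul_add_mod_self_right]
      exact Nat.mod_eq_of_lt (by omega)
    · intro t ht
      simp only [hA']
      congr 1
      rw [Nat.mul_add_mod_self_right]
      exact Nat.mod_eq_of_lt (by omega)
  have hrun : ∀ i, run m' A' x (i * k) = F^[i] x := by
    intro i
    induction i with
    | zero => rw [zero_mul]; rfl
    | succ i ih =>
      rw [show (i + 1) * k = i * k + k by ring, hrunr i k le_rfl, ih, Function.iterate_succ_apply', hF]
  let O : Orb v p q k n :=
    { hv := hv
      X := run m' A' x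
      m := m'
      D := fun t => (A' t).det
      D_ne := hA'd
      k_pos := hk
      n_pos := hn
      m_pos := fun t => hm1 _
      m_p := fun t => hmp _ (Nat.mod_lt _ hk)
      m_q := fun t => hmq _ (Nat.mod_lt _ hk)
      m_per := fun t => by simp only [hm']; rw [Nat.add_mod_right]
      step := by
        intro i j t
        have h1 : ∀ i, run m' A' x (i * k + (t + 1)) = stage (m' t) (A' t) (run m' A' x (i * k + t)) := by
          intro i
          have h2 : m' (i * k + t) = m' t := by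
            simp only [hm']; rw [Nat.mul_add_mod_self_right]
          have h3 : A' (i * k + t) = A' t := by
            simp only [hA']; rw [Nat.mul_add_mod_self_right]
          rw [← h2, ← h3]; rfl
        rw [h1, h1, br_stage]
      X_ne := fun t => run_ne hA'd hx t
      per := by
        intro t
        induction t with
        | zero =>
          rw [zero_add, hrun]
          exact (br_eq_zero_iff (hFit n) hx).1 hper
        | succ t ih =>
          obtain ⟨c, hc, h⟩ := ih
          refine ⟨c ^ m' t, pow_ne_zero _ hc, ?_⟩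
          have h2 : m' (t + n * k) = m' t := by
            simp only [hm']; rw [Nat.add_mul_mod_self_right]
          have h3 : A' (t + n * k) = A' t := by
            simp only [hA']; rw [Nat.add_mul_mod_self_right]
          rw [show t + 1 + n * k = t + n * k + 1 by ring]
          show stage (m' (t + n * k)) (A' (t + n * k)) (run m' A' x (t + n * k)) = _
          rw [h, h2, h3, stage_smul]; rfl
      dist := by
        intro i j
        rw [add_zero, add_zero, hrun, hrun]
        exact hdist i j }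
  apply O.main hp (κ := κ)
  refine le_trans (le_of_eq ?_) hκ
  congr 1
  apply Finset.filter_congr
  intro t ht
  rw [mem_range] at ht
  show 2 ≤ m (t % k) ↔ 2 ≤ m t
  rw [Nat.mod_eq_of_lt ht]

end orbit

/-- number of nontrivial stages -/
lemma card_stages_le {k d : ℕ} {m : ℕ → ℕ} (hm1 : ∀ t, 1 ≤ m t) (hd : ∏ t ∈ range k, m t = d) :
    ((range k).filter fun t => 2 ≤ m t).card ≤ d := by
  have h1 : 2 ^ ((range k).filter fun t => 2 ≤ m t).card ≤ ∏ t ∈ (range k).filter (fun t => 2 ≤ m t), m t := by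
    apply Finset.pow_card_le_prod
    intro t ht
    exact (mem_filter.1 ht).2
  have h2 : ∏ t ∈ (range k).filter (fun t => 2 ≤ m t), m t ≤ ∏ t ∈ range k, m t :=
    Finset.prod_le_prod_of_subset_of_one_le' (filter_subset _ _) (fun t _ _ => hm1 t)
  have h3 : ((range k).filter fun t => 2 ≤ m t).card < 2 ^ ((range k).filter fun t => 2 ≤ m t).card :=
    Nat.lt_two_pow_self
  omega

/-- uniform bound for the period -/
theorem exists_period_bound (D d : ℕ) (hd : 2 ≤ d) (h : ∀ r : ℕ, r.Prime → r ∣ d → D + 1 < r) :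
    ∃ N0 : ℕ, ∀ (K : Type) [Field K] [NumberField K], Module.finrank ℚ K ≤ D →
      ∀ F : (Fin 2 → K) → Fin 2 → K, Chain d F → ∀ x : Fin 2 → K, x ≠ 0 →
        (∃ m n : ℕ, m < n ∧ ∃ c : K, c ≠ 0 ∧ F^[n] x = c • F^[m] x) →
        ∃ n, 0 < n ∧ n ≤ N0 ∧ br (F^[n] x) x = 0 := by
  classical
  obtain ⟨p1, -, hp1, hp1d, hp1q⟩ := exists_good_prime D d hd h 1
  obtain ⟨p2, hp12, hp2, hp2d, hp2q⟩ := exists_good_prime D d hd h p1
  refine ⟨((p1 ^ D + 1) * (p1 ^ D) ^ (2 * d + 1)) * ((p2 ^ D + 1) * (p2 ^ D) ^ (2 * d + 1)), ?_⟩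
  intro K _ _ hK F hF x hx hpre
  obtain ⟨k, m, A, hk, hm1, hA, hdm, hF⟩ := hF
  have hmd : ∀ t < k, m t ∣ d := fun t ht => by
    rw [← hdm]; exact Finset.dvd_prod_of_mem _ (mem_range.2 ht)
  have hκ := card_stages_le hm1 hdm
  -- places
  obtain ⟨v1, f1, hf1, hf1', hv1⟩ := exists_place K p1 hp1
  obtain ⟨v2, f2, hf2, hf2', hv2⟩ := exists_place K p2 hp2
  have c1 : ∀ t < k, Nat.Coprime (m t) p1 := fun t ht => Nat.Coprime.coprime_dvd_left (hmd t ht) hp1d.symm
  have c2 : ∀ t < k, Nat.Coprime (m t) p2 := fun t ht => Nat.Coprime.coprime_dvd_left (hmd t ht) hp2d.symm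
  have c1' : ∀ t < k, Nat.Coprime (m t) (p1 ^ f1 - 1) := fun t ht =>
    Nat.Coprime.coprime_dvd_left (hmd t ht) (hp1q f1 hf1 (by omega))
  have c2' : ∀ t < k, Nat.Coprime (m t) (p2 ^ f2 - 1) := fun t ht =>
    Nat.Coprime.coprime_dvd_left (hmd t ht) (hp2q f2 hf2 (by omega))
  -- preperiodic points are periodic
  have hFne : ∀ y : Fin 2 → K, y ≠ 0 → F y ≠ 0 := fun y hy => by rw [hF]; exact run_ne hA hy k
  have hFit : ∀ i, F^[i] x ≠ 0 := by
    intro i
    induction i with
    | zero => exact hx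
    | succ i ih => rw [Function.iterate_succ_apply']; exact hFne _ ih
  have hFbr : ∀ y z : Fin 2 → K, br (F y) (F z) = 0 ↔ br y z = 0 := by
    intro y z
    rw [hF, hF]
    exact run_inj hv1 hm1 c1 c1' hA k le_rfl
  have hEs : ∀ s i j, br (F^[i + s] x) (F^[j + s] x) = 0 ↔ br (F^[i] x) (F^[j] x) = 0 := by
    intro s i j
    induction s with
    | zero => rfl
    | succ s ih =>
      rw [← add_assoc, ← add_assoc, Function.iterate_succ_apply', Function.iterate_succ_apply', hFbr]
      exact ih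
  have hex : ∃ n, 0 < n ∧ br (F^[n] x) x = 0 := by
    obtain ⟨a, b, hab, c, hc, h⟩ := hpre
    refine ⟨b - a, by omega, ?_⟩
    have h1 : br (F^[b] x) (F^[a] x) = 0 := (br_eq_zero_iff (hFit _) (hFit _)).2 ⟨c, hc, h⟩
    have h2 := hEs a (b - a) 0
    rw [Nat.sub_add_cancel hab.le, zero_add] at h2
    exact h2.1 h1
  obtain ⟨hn, hper⟩ := Nat.find_spec hex
  set n := Nat.find hex with hn'
  have hmin : ∀ n', 0 < n' → n' < n → br (F^[n'] x) x ≠ 0 := by
    intro n' h1 h2 h3
    exact Nat.find_min hex h2 ⟨h1, h3⟩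
  obtain ⟨M1, E1, hM1, hM1', hd1⟩ := period_dvd hv1 hp1 hk hm1 c1 c1' hA hκ hF hx hn hper hmin
  obtain ⟨M2, E2, hM2, hM2', hd2⟩ := period_dvd hv2 hp2 hk hm1 c2 c2' hA hκ hF hx hn hper hmin
  have h3 := dvd_of_two_primes hp1 hp2 (by omega) hd1 hd2
  refine ⟨n, hn, ?_, hper⟩
  have h4 := Nat.le_of_dvd (Nat.mul_pos hM1 hM2) h3
  have hq1 : p1 ^ f1 ≤ p1 ^ D := Nat.pow_le_pow_right hp1.pos (by omega)
  have hq2 : p2 ^ f2 ≤ p2 ^ D := Nat.pow_le_pow_right hp2.pos (by omega)
  calc n ≤ M1 * M2 := h4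
    _ ≤ ((p1 ^ f1 + 1) * (p1 ^ f1) ^ (2 * d + 1)) * ((p2 ^ f2 + 1) * (p2 ^ f2) ^ (2 * d + 1)) :=
        Nat.mul_le_mul hM1' hM2'
    _ ≤ _ := by gcongr

end Pool.Agent.H504R2
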