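import Pool.Agent.H504R2.Seg

set_option autoImplicit false
set_option linter.unusedSectionVars false
set_option linter.unusedVariables false

open Finset
open scoped WithZero Classical

namespace Pool.Agent.H504R2

variable {K : Type} [Field K] {v : Valuation K ℤᵐ⁰} {p q k n : ℕ}

namespace Orb

variable (O : Orb v p q k n)

lemma q_two (O : Orb v p q k n) : 2 ≤ q := by
  classical
  have := O.hv.card_le {0, 1} (by
    intro x hx y hy hxy
    simp only [mem_insert, mem_singleton] at hx hy
    rcases hx with rfl | rfl <;> rcases hy with rfl | rfl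
    · exact absurd rfl hxy
    · simp
    · simp
    · exact absurd rfl hxy)
  rwa [card_insert_of_notMem (by simp), card_singleton] at this

/-- badness is invariant under a full cycle -/
lemma bad_shift (t e : ℕ) (hen : e ∣ n) : O.Bad (t + k) e ↔ O.Bad t e := by
  have key : ∀ i j, v (O.b (i + n) (j + n) t) = O.w (i + n) (j + n) t ↔ v (O.b i j t) = O.w i j t := by
    intro i j
    obtain ⟨ci, hci, hi⟩ := O.pt_per i t
    obtain ⟨cj, hcj, hj⟩ := O.pt_per j t
    have e1 : O.b (i + n) (j + n) t = ci * cj * O.b i j t := by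
      unfold b; rw [hi, hj]; exact br_smul _ _ _ _
    have e2 : O.w (i + n) (j + n) t = v (ci * cj) * O.w i j t := by
      unfold w mu
      rw [hi, hj]
      simp only [Pi.smul_apply, smul_eq_mul]
      rw [show ci * O.pt i t 0 * (cj * O.pt j t 1) = (ci * cj) * (O.pt i t 0 * O.pt j t 1) by ring,
        show ci * O.pt i t 1 * (cj * O.pt j t 0) = (ci * cj) * (O.pt i t 1 * O.pt j t 0) by ring,
        map_mul v (ci * cj), map_mul v (ci * cj)]
      exact (mul_max _ _ _).symm
    rw [e1, e2, map_mul v (ci * cj)]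
    have h0 : v (ci * cj) ≠ 0 := (Valuation.ne_zero_iff v).2 (mul_ne_zero hci hcj)
    exact ⟨fun h => mul_left_cancel₀ h0 h, fun h => by rw [h]⟩
  have hb : ∀ i j, O.b i j (t + k) = O.b (i + 1) (j + 1) t := by
    intro i j; unfold b; rw [pt_shift, pt_shift]
  have hw : ∀ i j, O.w i j (t + k) = O.w (i + 1) (j + 1) t := by
    intro i j; unfold w; rw [pt_shift, pt_shift]
  have hn := O.n_pos
  unfold Bad
  rw [O.m_per]
  constructor
  · rintro ⟨hm, i, j, h1, h2, h3⟩
    refine ⟨hm, i + 1, j + 1, h1.add_right 1, fun h => h2 (Nat.ModEq.add_right_cancel' 1 h), ?_⟩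
    rw [← hb, ← hw]; exact h3
  · rintro ⟨hm, i, j, h1, h2, h3⟩
    refine ⟨hm, i + (n - 1), j + (n - 1), h1.add_right _, fun h => h2 (Nat.ModEq.add_right_cancel' _ h), ?_⟩
    rw [hb, hw, show i + (n - 1) + 1 = i + n by omega, show j + (n - 1) + 1 = j + n by omega]
    exact (key i j).2 h3

lemma bad_mod (t e : ℕ) (hen : e ∣ n) : O.Bad t e ↔ O.Bad (t % k) e := by
  have h : ∀ s, O.Bad (t % k + k * s) e ↔ O.Bad (t % k) e := by
    intro s
    induction s with
    | zero => rw [mul_zero, add_zero]
    | succ s ih =>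
      rw [show t % k + k * (s + 1) = t % k + k * s + k by ring, O.bad_shift _ e hen]
      exact ih
  have := h (t / k)
  rwa [Nat.mod_add_div] at this

/-- the set of bad stages at level `e` -/
noncomputable def badSet (e : ℕ) : Finset ℕ := (range k).filter fun t => O.Bad t e

lemma badSet_mono {e e' : ℕ} (he : e ∣ e') : O.badSet e' ⊆ O.badSet e := by
  intro t ht
  unfold badSet at *
  rw [mem_filter] at ht ⊢
  exact ⟨ht.1, O.bad_mono he ht.2⟩

variable [NeZero n]

omit [NeZero n] in
lemma sub_mem_iff {H : AddSubgroup (ZMod n)} {e : ℕ} (hH : ∀ i : ℕ, (i : ZMod n) ∈ H ↔ e ∣ i) (i j : ℕ) :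
    ((i : ZMod n) - (j : ZMod n)) ∈ H ↔ i ≡ j [MOD e] := by
  have key : ∀ i j : ℕ, j ≤ i → (((i : ZMod n) - (j : ZMod n)) ∈ H ↔ i ≡ j [MOD e]) := by
    intro i j hij
    obtain ⟨s, rfl⟩ := Nat.exists_eq_add_of_le hij
    rw [Nat.cast_add, add_sub_cancel_left, hH]
    constructor
    · intro h
      have : s ≡ 0 [MOD e] := (Nat.modEq_zero_iff_dvd).2 h
      simpa using (Nat.ModEq.refl j).add this
    · intro h
      have : j + s ≡ j + 0 [MOD e] := by simpa using h
      exact (Nat.modEq_zero_iff_dvd).1 (Nat.ModEq.add_left_cancel' j this)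
  rcases le_total j i with h | h
  · exact key i j h
  · rw [← neg_sub, H.neg_mem_iff, key j i h]
    exact ⟨fun h => h.symm, fun h => h.symm⟩

lemma goodN_of_good {H : AddSubgroup (ZMod n)} {e : ℕ} (hen : e ∣ n)
    (hH : ∀ i : ℕ, (i : ZMod n) ∈ H ↔ e ∣ i) (hG : O.Good H) : O.GoodN e := by
  intro a b c d hab hac had t
  have hbd : ¬ b ≡ d [MOD e] := fun h => had (hab.trans h)
  rw [O.lt_iff (fun h => hac (h.of_dvd hen)) (fun h => hbd (h.of_dvd hen)) t, O.sep_nat]
  apply hG
  · rw [sub_mem_iff hH]; exact hab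
  · rw [sub_mem_iff hH]; exact hac
  · rw [sub_mem_iff hH]; exact had

/-- the main induction -/
theorem main_induction (hp : p.Prime) (N : ℕ) : ∀ (H : AddSubgroup (ZMod n)) (e : ℕ), (fs H).card ≤ N →
    O.Good H → 2 * (fs H).card ≤ n → (∀ i : ℕ, (i : ZMod n) ∈ H ↔ e ∣ i) → 0 < e → e ∣ n →
    (fs H).card * e = n →
    ∃ T E : ℕ, 1 ≤ T ∧ T ≤ q ^ (2 * (O.badSet e).card + 1) ∧ (fs H).card ∣ T * p ^ E := by
  induction N with
  | zero =>
    intro H e hN _ _ _ _ _ hc
    have hn := O.n_pos
    have : (fs H).card = 0 := by omega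
    rw [this, zero_mul] at hc
    omega
  | succ N ih =>
    intro H e hN hG hT hH he hen hc
    have hn := O.n_pos
    have hq := O.q_two
    -- candidates
    let S : Finset ℕ := (range (n + 1)).filter fun c => ∃ (H' : AddSubgroup (ZMod n)) (e' : ℕ), H' ≤ H ∧
      O.Good H' ∧ (∀ i : ℕ, (i : ZMod n) ∈ H' ↔ e' ∣ i) ∧ 0 < e' ∧ e' ∣ n ∧ (fs H').card * e' = n ∧
      O.badSet e' = O.badSet e ∧ (fs H').card = c
    have hSne : S.Nonempty := ⟨(fs H).card, by
      rw [mem_filter]
      exact ⟨by rw [mem_range]; omega, H, e, le_refl _, hG, hH, he, hen, hc, rfl, rfl⟩⟩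
    obtain ⟨c, hcS, hcmin⟩ := exists_min_image S id hSne
    rw [mem_filter] at hcS
    obtain ⟨-, H', e', hle, hG', hH', he', hen', hc', hbad, hcc⟩ := hcS
    have hee' : e ∣ e' := (hH e').1 (hle ((hH' e').2 (dvd_refl e')))
    have he2 : 2 ≤ e := by
      by_contra hcon
      have : e = 1 := by omega
      rw [this, mul_one] at hc
      omega
    obtain ⟨E, hE⟩ := O.segment hee' hen' (O.goodN_of_good hen hH hG) (O.goodN_of_good hen' hH' hG')
      (by
        intro t ht
        rw [O.bad_mod t e hen] at ht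
        rw [O.bad_mod t e' hen']
        have h1 : t % k ∈ O.badSet e := by
          unfold badSet; rw [mem_filter, mem_range]; exact ⟨Nat.mod_lt _ O.k_pos, ht⟩
        rw [← hbad] at h1
        unfold badSet at h1
        rw [mem_filter] at h1
        exact h1.2) he2 hp
    have hHH' : (fs H).card ∣ (fs H').card * ((q - 1) * p ^ E) := by
      have h1 : (fs H).card * e ∣ ((fs H').card * ((q - 1) * p ^ E)) * e := by
        have h2 : (fs H').card * e' ∣ (fs H').card * (e * (q - 1) * p ^ E) := Nat.mul_dvd_mul (dvd_refl _) hE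
        rw [hc'] at h2
        rw [hc]
        have h3 : (fs H').card * ((q - 1) * p ^ E) * e = (fs H').card * (e * (q - 1) * p ^ E) := by ring
        rw [h3]; exact h2
      exact Nat.dvd_of_mul_dvd_mul_right he h1
    by_cases h2 : 2 ≤ (fs H').card
    · have hcle : (fs H').card ≤ (fs H).card := by
        apply card_le_card
        intro a ha
        rw [mem_fs] at ha ⊢
        exact hle ha
      obtain ⟨H'', hle'', hG'', hlt, hidx⟩ := O.next_level hG' (by omega) h2
      obtain ⟨e'', he'', hen'', hH'', hc''⟩ := exists_gen H''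
      have hee'' : e' ∣ e'' := (hH' e'').1 (hle'' ((hH'' e'').2 (dvd_refl e'')))
      -- strict decrease of the number of bad stages
      have hbadlt : (O.badSet e'').card < (O.badSet e).card := by
        rw [← hbad]
        have hsub := O.badSet_mono hee''
        rcases (card_le_card hsub).lt_or_eq with h | h
        · exact h
        · exfalso
          have h3 := eq_of_subset_of_card_le hsub h.ge
          have h4 := hcmin (fs H'').card (by
            rw [mem_filter]
            refine ⟨by rw [mem_range]; omega, H'', e'', hle''.trans hle, hG'', hH'', he'', hen'', hc'', ?_, rfl⟩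
            rw [h3, hbad])
          simp only [id] at h4
          omega
      obtain ⟨T, E', hT1, hT2, hT3⟩ := ih H'' e'' (by omega) hG'' (by omega) hH'' he'' hen'' hc''
      obtain ⟨r, hr⟩ := hee''
      have hr' : (fs H').card = (fs H'').card * r := by
        have h5 : (fs H').card * e' = ((fs H'').card * r) * e' := by
          calc (fs H').card * e' = n := hc'
            _ = (fs H'').card * e'' := hc''.symm
            _ = ((fs H'').card * r) * e' := by rw [hr]; ring
        exact Nat.eq_of_mul_eq_mul_right he' h5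
      have hrpos : 0 < r := Nat.pos_of_ne_zero (by rintro rfl; omega)
      have hrq : r ≤ q := by
        have h6 : (fs H'').card * r ≤ (fs H'').card * q := by rw [← hr', mul_comm (fs H'').card q]; exact hidx
        have h7 : 0 < (fs H'').card := Nat.pos_of_ne_zero (by intro h; rw [h, zero_mul] at hc''; omega)
        exact Nat.le_of_mul_le_mul_left h6 h7
      refine ⟨T * r * (q - 1), E' + E, ?_, ?_, ?_⟩
      · have : 0 < q - 1 := by omega
        have h8 : 0 < T * r * (q - 1) := by positivity
        exact h8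
      · calc T * r * (q - 1) ≤ q ^ (2 * (O.badSet e'').card + 1) * q * q := by
              gcongr
              omega
          _ = q ^ (2 * (O.badSet e'').card + 3) := by ring
          _ ≤ q ^ (2 * (O.badSet e).card + 1) := Nat.pow_le_pow_right (by omega) (by omega)
      · have h9 : (fs H').card ∣ (T * p ^ E') * r := by
          rw [hr']; exact Nat.mul_dvd_mul hT3 (dvd_refl r)
        have h10 : (fs H').card * ((q - 1) * p ^ E) ∣ (T * p ^ E') * r * ((q - 1) * p ^ E) :=
          Nat.mul_dvd_mul h9 (dvd_refl _)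
        have h11 := hHH'.trans h10
        have h12 : T * r * (q - 1) * p ^ (E' + E) = (T * p ^ E') * r * ((q - 1) * p ^ E) := by
          rw [pow_add]; ring
        rw [h12]; exact h11
    · have h3 : (fs H').card ≤ 1 := by omega
      refine ⟨q - 1, E, by omega, ?_, ?_⟩
      · calc q - 1 ≤ q ^ 1 := by rw [pow_one]; omega
          _ ≤ q ^ (2 * (O.badSet e).card + 1) := Nat.pow_le_pow_right (by omega) (by omega)
      · have h4 : (fs H').card ∣ 1 := by
          have : (fs H').card = 1 := by
            have : (fs H').card ≠ 0 := by intro h; rw [h, zero_mul] at hc'; omega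
            omega
          rw [this]
        have h5 : (fs H').card * ((q - 1) * p ^ E) ∣ 1 * ((q - 1) * p ^ E) := Nat.mul_dvd_mul h4 (dvd_refl _)
        rw [one_mul] at h5
        exact hHH'.trans h5

end Orb

/-- The main local theorem. -/
theorem Orb.main (O : Orb v p q k n) (hp : p.Prime) {κ : ℕ}
    (hκ : ((range k).filter fun t => 2 ≤ O.m t).card ≤ κ) :
    ∃ M E : ℕ, 1 ≤ M ∧ M ≤ (q + 1) * q ^ (2 * κ + 1) ∧ n ∣ M * p ^ E := by
  have hq := O.q_two
  have hn := O.n_pos
  rcases Nat.lt_or_ge n 2 with h | h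
  · have : n = 1 := by omega
    refine ⟨1, 0, le_rfl, ?_, by rw [this]; exact one_dvd _⟩
    have : 0 < q ^ (2 * κ + 1) := by positivity
    nlinarith
  · haveI : NeZero n := ⟨by omega⟩
    obtain ⟨H, hG, h1, h2⟩ := O.top_level h
    obtain ⟨e, he, hen, hH, hc⟩ := Orb.exists_gen H
    obtain ⟨T, E, hT1, hT2, hT3⟩ := O.main_induction hp _ H e le_rfl hG h1 hH he hen hc
    have hcpos : 0 < (Orb.fs H).card := Nat.pos_of_ne_zero (by intro h; rw [h, zero_mul] at hc; omega)
    have heq : e ≤ q + 1 := by
      have h3 : (Orb.fs H).card * e ≤ (Orb.fs H).card * (q + 1) := by rw [hc, mul_comm]; exact h2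
      exact Nat.le_of_mul_le_mul_left h3 hcpos
    have hβ : (O.badSet e).card ≤ κ := by
      refine le_trans (card_le_card ?_) hκ
      intro t ht
      unfold Orb.badSet at ht
      rw [mem_filter] at ht ⊢
      exact ⟨ht.1, ht.2.1⟩
    refine ⟨e * T, E, Nat.mul_pos he hT1, ?_, ?_⟩
    · calc e * T ≤ (q + 1) * q ^ (2 * (O.badSet e).card + 1) := Nat.mul_le_mul heq hT2
        _ ≤ (q + 1) * q ^ (2 * κ + 1) := Nat.mul_le_mul_left _ (Nat.pow_le_pow_right (by omega) (by omega))
    · have : n ∣ T * p ^ E * e := by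
        conv_lhs => rw [← hc]
        exact Nat.mul_dvd_mul hT3 (dvd_refl e)
      convert this using 1
      ring

end Pool.Agent.H504R2
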