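import Pool.Agent.H504R2.Place

set_option autoImplicit false

open Finset
open scoped WithZero

namespace Pool.Agent.H504R2

variable {K : Type} [Field K] {v : Valuation K ℤᵐ⁰}

/-- `a` and `b` agree to relative precision better than `1`. -/
def Near (v : Valuation K ℤᵐ⁰) (a b : K) : Prop := v (a - b) < v b

namespace Near

lemma ne_right {a b : K} (h : Near v a b) : b ≠ 0 := by
  rintro rfl
  simp [Near] at h

lemma v_eq {a b : K} (h : Near v a b) : v a = v b := by
  have h1 : a = (a - b) + b := by ring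
  rw [h1]
  exact Valuation.map_add_eq_of_lt_right _ h

lemma ne_left {a b : K} (h : Near v a b) : a ≠ 0 := by
  intro ha
  have := h.v_eq
  rw [ha, map_zero] at this
  exact h.ne_right ((Valuation.zero_iff v).1 this.symm)

lemma refl {a : K} (h : a ≠ 0) : Near v a a := by
  simp only [Near, sub_self, map_zero]
  exact zero_lt_iff.2 ((Valuation.ne_zero_iff v).2 h)

lemma of_eq {a b : K} (h : a = b) (hb : b ≠ 0) : Near v a b := by
  subst h; exact refl hb

lemma symm {a b : K} (h : Near v a b) : Near v b a := by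
  have := h.v_eq
  rw [Near, Valuation.map_sub_swap, this]; exact h

lemma trans {a b c : K} (h : Near v a b) (h' : Near v b c) : Near v a c := by
  have h1 : a - c = (a - b) + (b - c) := by ring
  rw [Near, h1]
  apply Valuation.map_add_lt
  · rw [← h'.v_eq]; exact h
  · exact h'

lemma mul {a b c d : K} (h : Near v a b) (h' : Near v c d) : Near v (a * c) (b * d) := by
  have h1 : a * c - b * d = (a - b) * c + b * (c - d) := by ring
  rw [Near, h1]
  have hb : 0 < v b := zero_lt_iff.2 ((Valuation.ne_zero_iff v).2 h.ne_right)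
  have hd : 0 < v d := zero_lt_iff.2 ((Valuation.ne_zero_iff v).2 h'.ne_right)
  apply Valuation.map_add_lt
  · rw [map_mul, map_mul, h'.v_eq]
    exact mul_lt_mul_of_pos_right h hd
  · rw [map_mul, map_mul]
    exact mul_lt_mul_of_pos_left h' hb

lemma inv {a b : K} (h : Near v a b) : Near v a⁻¹ b⁻¹ := by
  have ha := h.ne_left
  have hb := h.ne_right
  have h1 : a⁻¹ - b⁻¹ = (b - a) * a⁻¹ * b⁻¹ := by field_simp
  have h2 : Near v b a := h.symm
  rw [Near, h1, map_mul, map_mul]
  have hb' : 0 < v b⁻¹ := zero_lt_iff.2 ((Valuation.ne_zero_iff v).2 (inv_ne_zero hb))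
  have ha' : 0 < v a := zero_lt_iff.2 ((Valuation.ne_zero_iff v).2 ha)
  have h3 : v (b - a) * v a⁻¹ < 1 := by
    rw [map_inv₀]
    exact mul_inv_lt_of_lt_mul₀ (by rw [one_mul]; exact h2)
  calc v (b - a) * v a⁻¹ * v b⁻¹ < 1 * v b⁻¹ := mul_lt_mul_of_pos_right h3 hb'
    _ = v b⁻¹ := one_mul _

lemma div {a b c d : K} (h : Near v a b) (h' : Near v c d) : Near v (a / c) (b / d) := by
  rw [div_eq_mul_inv, div_eq_mul_inv]; exact h.mul h'.inv

lemma pow {a b : K} (h : Near v a b) (n : ℕ) : Near v (a ^ n) (b ^ n) := by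
  induction n with
  | zero => simpa using refl (v := v) (one_ne_zero (α := K))
  | succ n ih => rw [pow_succ, pow_succ]; exact ih.mul h

lemma mul_left {a b c : K} (hc : c ≠ 0) (h : Near v a b) : Near v (c * a) (c * b) :=
  (refl hc).mul h

lemma mul_right {a b c : K} (hc : c ≠ 0) (h : Near v a b) : Near v (a * c) (b * c) :=
  h.mul (refl hc)

lemma of_mul_right {a b c : K} (hc : c ≠ 0) (h : Near v (a * c) (b * c)) : Near v a b := by
  have := h.mul_right (inv_ne_zero hc)
  rwa [mul_assoc, mul_assoc, mul_inv_cancel₀ hc, mul_one, mul_one] at this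

lemma sum {ι : Type} (s : Finset ι) (a : ι → K) {b : K} (hb : b ≠ 0) (h : ∀ i ∈ s, Near v (a i) b) :
    v (∑ i ∈ s, a i - (s.card : K) * b) < v b := by
  have h1 : ∑ i ∈ s, a i - (s.card : K) * b = ∑ i ∈ s, (a i - b) := by
    rw [Finset.sum_sub_distrib, Finset.sum_const, nsmul_eq_mul]
  rw [h1]
  exact Valuation.map_sum_lt _ ((Valuation.ne_zero_iff v).2 hb) h

end Near

/-- the geometric sum `∑_{i<m} a^i b^{m-1-i}` -/
def gs (m : ℕ) (a b : K) : K := ∑ i ∈ range m, a ^ i * b ^ (m - 1 - i)

lemma gs_mul (m : ℕ) (a b : K) : (a - b) * gs m a b = a ^ m - b ^ m :=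
  (Commute.all a b).mul_geom_sum₂ m

lemma gs_comm (m : ℕ) (a b : K) : gs m a b = gs m b a :=
  (Commute.all a b).geom_sum₂_comm m

lemma gs_self (m : ℕ) (a : K) : gs m a a = m * a ^ (m - 1) := by
  unfold gs
  have : ∀ i ∈ range m, a ^ i * a ^ (m - 1 - i) = a ^ (m - 1) := by
    intro i hi
    rw [← pow_add]
    congr 1
    have := mem_range.1 hi
    omega
  rw [Finset.sum_congr rfl this, Finset.sum_const, card_range, nsmul_eq_mul]

lemma gs_smul (m : ℕ) (c a b : K) : gs m (c * a) (c * b) = c ^ (m - 1) * gs m a b := by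
  unfold gs
  rw [Finset.mul_sum]
  apply Finset.sum_congr rfl
  intro i hi
  have h1 := mem_range.1 hi
  have h2 : c ^ (m - 1) = c ^ i * c ^ (m - 1 - i) := by rw [← pow_add]; congr 1; omega
  rw [mul_pow, mul_pow, h2]; ring

lemma gs_one (a b : K) : gs 1 a b = 1 := by simp [gs]

variable {p q : ℕ}

lemma IsPlace.int_le (hv : IsPlace v p q) (z : ℤ) : v (z : K) ≤ 1 := by
  rcases Int.eq_nat_or_neg z with ⟨n, rfl | rfl⟩
  · simpa using hv.nat_le n
  · simpa using hv.nat_le n

lemma IsPlace.v_coprime (hv : IsPlace v p q) {m : ℕ} (hm : Nat.Coprime m p) : v (m : K) = 1 := by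
  apply le_antisymm (hv.nat_le m)
  have h1 := Nat.gcd_eq_gcd_ab m p
  rw [Nat.coprime_iff_gcd_eq_one.1 hm] at h1
  have h2 : (1 : K) = (m : K) * ((Nat.gcdA m p : ℤ) : K) + (p : K) * ((Nat.gcdB m p : ℤ) : K) := by
    have := congrArg (fun z : ℤ => (z : K)) h1
    push_cast at this
    simpa using this
  have h3 : v (1 : K) ≤ max (v ((m : K) * ((Nat.gcdA m p : ℤ) : K))) (v ((p : K) * ((Nat.gcdB m p : ℤ) : K))) := by
    conv_lhs => rw [h2]
    exact Valuation.map_add _ _ _
  rw [map_one, map_mul, map_mul, le_max_iff] at h3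
  rcases h3 with h3 | h3
  · calc (1 : ℤᵐ⁰) ≤ v (m : K) * v ((Nat.gcdA m p : ℤ) : K) := h3
      _ ≤ v (m : K) * 1 := by gcongr; exact hv.int_le _
      _ = v (m : K) := mul_one _
  · exfalso
    have h4 : v (p : K) * v ((Nat.gcdB m p : ℤ) : K) ≤ v (p : K) * 1 := by
      gcongr; exact hv.int_le _
    rw [mul_one] at h4
    exact absurd (lt_of_le_of_lt (h3.trans h4) hv.p_lt) (lt_irrefl _)

/-- injectivity of `m`-th powers on the residue field -/
lemma IsPlace.residue_inj (hv : IsPlace v p q) {m : ℕ} (hm : Nat.Coprime m (q - 1)) {u : K}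
    (hu : v u = 1) (h : v (u ^ m - 1) < 1) : v (u - 1) < 1 := by
  have hu0 : u ≠ 0 := by rintro rfl; simp at hu
  have e1 : Near v (u ^ m) 1 := by rw [Near, map_one]; exact h
  have e2 : Near v (u ^ (q - 1)) 1 := by rw [Near, map_one]; exact hv.unit_pow u hu
  have h1 := Nat.gcd_eq_gcd_ab m (q - 1)
  rw [Nat.coprime_iff_gcd_eq_one.1 hm] at h1
  -- powers with integer exponents
  have hz : ∀ (a : K), Near v a 1 → ∀ z : ℤ, Near v (a ^ z) 1 := by
    intro a ha z
    rcases Int.eq_nat_or_neg z with ⟨n, rfl | rfl⟩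
    · rw [zpow_natCast]; simpa using ha.pow n
    · rw [zpow_neg, zpow_natCast]; simpa using (ha.pow n).inv
  have e3 := hz _ e1 (Nat.gcdA m (q - 1))
  have e4 := hz _ e2 (Nat.gcdB m (q - 1))
  have e5 := e3.mul e4
  rw [mul_one] at e5
  have h2 : (u ^ m) ^ (Nat.gcdA m (q - 1)) * (u ^ (q - 1)) ^ (Nat.gcdB m (q - 1)) = u := by
    rw [← zpow_natCast u m, ← zpow_natCast u (q - 1), ← zpow_mul, ← zpow_mul, ← zpow_add₀ hu0,
      ← h1]
    simp
  rw [h2, Near, map_one] at e5
  exact e5

/-- The key valuation formula for geometric sums. -/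
lemma v_gs (hv : IsPlace v p q) {m : ℕ} (hm1 : 1 ≤ m) (hmp : Nat.Coprime m p)
    (hmq : Nat.Coprime m (q - 1)) (a b : K) : v (gs m a b) = (max (v a) (v b)) ^ (m - 1) := by
  -- the case where the valuations are different
  have key : ∀ a b : K, v a < v b → v (gs m a b) = (max (v a) (v b)) ^ (m - 1) := by
    intro a b hab
    have hb0 : v b ≠ 0 := (lt_of_le_of_lt zero_le hab).ne'
    have h1 := congrArg v (gs_mul m a b)
    rw [map_mul, Valuation.map_sub_eq_of_lt_right _ hab,
      Valuation.map_sub_eq_of_lt_right _ (by rw [map_pow, map_pow]; exact pow_lt_pow_left₀ hab zero_le (by omega)),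
      map_pow] at h1
    rw [max_eq_right hab.le]
    have h2 : v b ^ m = v b * v b ^ (m - 1) := by rw [← pow_succ']; congr 1; omega
    rw [h2] at h1
    exact mul_left_cancel₀ hb0 h1
  rcases lt_trichotomy (v a) (v b) with hab | hab | hab
  · exact key a b hab
  · rw [hab, max_self]
    by_cases hb0 : b = 0
    · have ha0 : a = 0 := by
        rw [hb0, map_zero] at hab; exact (Valuation.zero_iff v).1 hab
      subst hb0; subst ha0
      rw [gs_self, map_mul, map_pow, hv.v_coprime hmp, one_mul]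
    have hvb : v b ≠ 0 := (Valuation.ne_zero_iff v).2 hb0
    have hle : v (a - b) ≤ v b := by
      calc v (a - b) ≤ max (v a) (v b) := Valuation.map_sub _ _ _
        _ = v b := by rw [hab, max_self]
    rcases hle.lt_or_eq with hlt | heq
    · -- near case
      have hN : Near v a b := hlt
      have h1 : v (gs m a b - m * b ^ (m - 1)) < v (b ^ (m - 1)) := by
        have h2 : gs m a b - m * b ^ (m - 1) = ∑ i ∈ range m, (a ^ i * b ^ (m - 1 - i) - b ^ (m - 1)) := by
          rw [Finset.sum_sub_distrib, Finset.sum_const, card_range, nsmul_eq_mul]; rfl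
        rw [h2]
        apply Valuation.map_sum_lt _ ((Valuation.ne_zero_iff v).2 (pow_ne_zero _ hb0))
        intro i hi
        have h3 : b ^ (m - 1) = b ^ i * b ^ (m - 1 - i) := by
          rw [← pow_add]; congr 1; have := mem_range.1 hi; omega
        rw [h3]
        exact (hN.pow i).mul (Near.refl (pow_ne_zero _ hb0))
      have h4 : v ((m : K) * b ^ (m - 1)) = v b ^ (m - 1) := by
        rw [map_mul, hv.v_coprime hmp, one_mul, map_pow]
      have h5 : gs m a b = (gs m a b - m * b ^ (m - 1)) + m * b ^ (m - 1) := by ring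
      rw [h5, Valuation.map_add_eq_of_lt_right _ (by rw [h4, ← map_pow]; exact h1), h4]
    · -- different residue classes
      have h1 : v (a ^ m - b ^ m) = v b ^ m := by
        have h2 : v (a ^ m - b ^ m) ≤ v b ^ m := by
          calc v (a ^ m - b ^ m) ≤ max (v (a ^ m)) (v (b ^ m)) := Valuation.map_sub _ _ _
            _ = v b ^ m := by rw [map_pow, map_pow, hab, max_self]
        rcases h2.lt_or_eq with h3 | h3
        · exfalso
          have hu : v (a / b) = 1 := by rw [map_div₀, hab, div_self hvb]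
          have h4 : v ((a / b) ^ m - 1) < 1 := by
            have h5 : (a / b) ^ m - 1 = (a ^ m - b ^ m) / b ^ m := by
              rw [div_pow, sub_div, div_self (pow_ne_zero _ hb0)]
            rw [h5, map_div₀, map_pow]
            exact (div_lt_one₀ (pow_pos (zero_lt_iff.2 hvb) m)).2 h3
          have h6 := hv.residue_inj hmq hu h4
          have h7 : a / b - 1 = (a - b) / b := by rw [sub_div, div_self hb0]
          rw [h7, map_div₀, heq, div_self hvb] at h6
          exact lt_irrefl _ h6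
        · exact h3
      have h2 := congrArg v (gs_mul m a b)
      rw [map_mul, h1, heq] at h2
      have h3 : v b ^ m = v b * v b ^ (m - 1) := by rw [← pow_succ']; congr 1; omega
      rw [h3] at h2
      exact mul_left_cancel₀ hvb h2
  · rw [gs_comm, max_comm]; exact key b a hab

/-- transporting geometric sums along near elements -/
lemma near_gs (hv : IsPlace v p q) {m : ℕ} (hm1 : 1 ≤ m) (hmp : Nat.Coprime m p)
    (hmq : Nat.Coprime m (q - 1)) {a b : K} (h : Near v a b) (c : K) :
    Near v (gs m a c) (gs m b c) := by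
  have hb0 := h.ne_right
  have hR : 0 < v b := zero_lt_iff.2 ((Valuation.ne_zero_iff v).2 hb0)
  have hM : v b ≤ max (v b) (v c) := le_max_left _ _
  have hM0 : 0 < max (v b) (v c) := lt_of_lt_of_le hR hM
  rw [Near, v_gs hv hm1 hmp hmq b c]
  have h1 : gs m a c - gs m b c = ∑ i ∈ range m, (a ^ i - b ^ i) * c ^ (m - 1 - i) := by
    unfold gs
    rw [← Finset.sum_sub_distrib]
    apply Finset.sum_congr rfl
    intro i _; ring
  rw [h1]
  apply Valuation.map_sum_lt _ (pow_pos hM0 _).ne'
  intro i hi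
  rw [map_mul, map_pow]
  have h2 : (max (v b) (v c)) ^ (m - 1) = (max (v b) (v c)) ^ i * (max (v b) (v c)) ^ (m - 1 - i) := by
    rw [← pow_add]; congr 1; have := mem_range.1 hi; omega
  rw [h2]
  have h3 : v (a ^ i - b ^ i) < (max (v b) (v c)) ^ i := by
    have := h.pow i
    rw [Near, map_pow] at this
    exact lt_of_lt_of_le this (pow_le_pow_left₀ zero_le hM i)
  calc v (a ^ i - b ^ i) * v c ^ (m - 1 - i) ≤ v (a ^ i - b ^ i) * (max (v b) (v c)) ^ (m - 1 - i) := by
        gcongr; exact le_max_right _ _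
    _ < (max (v b) (v c)) ^ i * (max (v b) (v c)) ^ (m - 1 - i) :=
        mul_lt_mul_of_pos_right h3 (pow_pos hM0 _)

end Pool.Agent.H504R2
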