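import Pool.Agent.H504R2.Near

set_option autoImplicit false

open Finset
open scoped WithZero

namespace Pool.Agent.H504R2

variable {K : Type} [Field K] {v : Valuation K ℤᵐ⁰} {p q k n : ℕ}

/-- bracket of two vectors -/
def br (x y : Fin 2 → K) : K := x 0 * y 1 - x 1 * y 0

/-- the larger of the valuations of the two terms of the bracket -/
def mu (v : Valuation K ℤᵐ⁰) (x y : Fin 2 → K) : ℤᵐ⁰ := max (v (x 0 * y 1)) (v (x 1 * y 0))

/-- the cofactor: `br (x^m) (y^m) = hh m x y * br x y` -/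
def hh (m : ℕ) (x y : Fin 2 → K) : K := gs m (x 0 * y 1) (x 1 * y 0)

lemma plucker (x y z w : Fin 2 → K) : br x y * br z w - br x z * br y w + br x w * br y z = 0 := by
  unfold br; ring

lemma br_comm (x y : Fin 2 → K) : br y x = - br x y := by unfold br; ring

lemma v_br_comm (x y : Fin 2 → K) : v (br y x) = v (br x y) := by
  rw [br_comm, Valuation.map_neg]

lemma br_self (x : Fin 2 → K) : br x x = 0 := by unfold br; ring

lemma mu_comm (x y : Fin 2 → K) : mu v y x = mu v x y := by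
  unfold mu; rw [max_comm, mul_comm (y 1), mul_comm (y 0)]

lemma hh_comm (m : ℕ) (x y : Fin 2 → K) : hh m y x = hh m x y := by
  unfold hh; rw [gs_comm, mul_comm (y 1), mul_comm (y 0)]

lemma br_le_mu (x y : Fin 2 → K) : v (br x y) ≤ mu v x y := Valuation.map_sub _ _ _

lemma br_eq_mu (x y : Fin 2 → K) (h : v (x 0 * y 1) ≠ v (x 1 * y 0)) : v (br x y) = mu v x y := by
  unfold br mu
  rcases lt_or_gt_of_ne h with h | h
  · rw [Valuation.map_sub_eq_of_lt_right _ h, max_eq_right h.le]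
  · rw [Valuation.map_sub_eq_of_lt_left _ h, max_eq_left h.le]

lemma mu_mul_le_of_eq (x y z w : Fin 2 → K) (h : v (x 0 * y 1) = v (x 1 * y 0)) :
    mu v x y * mu v z w ≤ mu v x z * mu v y w := by
  have e1 : mu v x y = v (x 0 * y 1) := by unfold mu; rw [← h, max_self]
  have e2 : mu v x y = v (x 1 * y 0) := by rw [e1, h]
  rcases le_total (v (z 0 * w 1)) (v (z 1 * w 0)) with hz | hz
  · have : mu v z w = v (z 1 * w 0) := max_eq_right hz
    rw [e1, this, ← map_mul, show x 0 * y 1 * (z 1 * w 0) = (x 0 * z 1) * (y 1 * w 0) by ring, map_mul]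
    exact mul_le_mul' (le_max_left _ _) (le_max_right _ _)
  · have : mu v z w = v (z 0 * w 1) := max_eq_left hz
    rw [e2, this, ← map_mul, show x 1 * y 0 * (z 0 * w 1) = (x 1 * z 0) * (y 0 * w 1) by ring, map_mul]
    exact mul_le_mul' (le_max_right _ _) (le_max_left _ _)

/-- The four point lemma. -/
lemma four_point (x y z w : Fin 2 → K) (h : mu v x z * mu v y w < mu v x y * mu v z w) :
    v (br x z * br y w) < v (br x y * br z w) := by
  have h1 : v (x 0 * y 1) ≠ v (x 1 * y 0) := fun he =>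
    absurd (mu_mul_le_of_eq x y z w he) (not_le.2 h)
  have h2 : v (z 0 * w 1) ≠ v (z 1 * w 0) := by
    intro he
    have := mu_mul_le_of_eq z w x y he
    rw [mul_comm (mu v z w), mu_comm x z, mu_comm y w] at this
    exact absurd this (not_le.2 h)
  rw [map_mul, map_mul, br_eq_mu x y h1, br_eq_mu z w h2]
  exact lt_of_le_of_lt (mul_le_mul' (br_le_mu _ _) (br_le_mu _ _)) h

/-- A periodic orbit (of exact period `n`) of a composite of `k` stage maps. -/
structure Orb (v : Valuation K ℤᵐ⁰) (p q k n : ℕ) where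
  hv : IsPlace v p q
  X : ℕ → Fin 2 → K
  m : ℕ → ℕ
  D : ℕ → K
  D_ne : ∀ t, D t ≠ 0
  k_pos : 0 < k
  n_pos : 0 < n
  m_pos : ∀ t, 1 ≤ m t
  m_p : ∀ t, Nat.Coprime (m t) p
  m_q : ∀ t, Nat.Coprime (m t) (q - 1)
  m_per : ∀ t, m (t + k) = m t
  step : ∀ i j t, br (X (i * k + (t + 1))) (X (j * k + (t + 1))) =
    D t * hh (m t) (X (i * k + t)) (X (j * k + t)) * br (X (i * k + t)) (X (j * k + t))
  X_ne : ∀ t, X t ≠ 0
  per : ∀ t, ∃ c : K, c ≠ 0 ∧ X (t + n * k) = c • X t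
  dist : ∀ i j, br (X (i * k + 0)) (X (j * k + 0)) = 0 ↔ i ≡ j [MOD n]

namespace Orb

variable (O : Orb v p q k n)

/-- the point with index `i` at time `t` -/
def pt (i t : ℕ) : Fin 2 → K := O.X (i * k + t)

/-- bracket of the points with indices `i`, `j` at time `t` -/
def b (i j t : ℕ) : K := br (O.pt i t) (O.pt j t)

/-- cofactor of the points with indices `i`, `j` at time `t` -/
def h (i j t : ℕ) : K := hh (O.m t) (O.pt i t) (O.pt j t)

/-- `mu` of the points with indices `i`, `j` at time `t` -/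
def w (i j t : ℕ) : ℤᵐ⁰ := mu v (O.pt i t) (O.pt j t)

lemma b_succ (i j t : ℕ) : O.b i j (t + 1) = O.D t * O.h i j t * O.b i j t := O.step i j t

lemma b_comm (i j t : ℕ) : O.b j i t = - O.b i j t := br_comm _ _

lemma v_b_comm (i j t : ℕ) : v (O.b j i t) = v (O.b i j t) := v_br_comm _ _

lemma h_comm (i j t : ℕ) : O.h j i t = O.h i j t := hh_comm _ _ _

lemma w_comm (i j t : ℕ) : O.w j i t = O.w i j t := mu_comm _ _

lemma v_h (i j t : ℕ) : v (O.h i j t) = (O.w i j t) ^ (O.m t - 1) :=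
  v_gs O.hv (O.m_pos t) (O.m_p t) (O.m_q t) _ _

lemma v_b_le (i j t : ℕ) : v (O.b i j t) ≤ O.w i j t := br_le_mu _ _

lemma w_pos {i j t : ℕ} (h : O.b i j t ≠ 0) : 0 < O.w i j t :=
  lt_of_lt_of_le (zero_lt_iff.2 ((Valuation.ne_zero_iff v).2 h)) (O.v_b_le i j t)

lemma h_ne {i j t : ℕ} (h : O.b i j t ≠ 0) : O.h i j t ≠ 0 := by
  rw [← Valuation.ne_zero_iff v, v_h]
  exact (pow_pos (O.w_pos h) _).ne'

lemma b_eq_zero (i j t : ℕ) : O.b i j t = 0 ↔ i ≡ j [MOD n] := by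
  induction t with
  | zero => exact O.dist i j
  | succ t ih =>
    rw [← ih, b_succ]
    constructor
    · intro h
      by_contra hne
      exact (mul_ne_zero (mul_ne_zero (O.D_ne t) (O.h_ne hne)) hne) h
    · intro h; rw [h, mul_zero]

lemma b_ne {i j : ℕ} (hij : ¬ i ≡ j [MOD n]) (t : ℕ) : O.b i j t ≠ 0 :=
  fun h => hij ((O.b_eq_zero i j t).1 h)

lemma pt_shift (i t : ℕ) : O.pt i (t + k) = O.pt (i + 1) t := by
  unfold pt; congr 1; ring

lemma pt_per (i t : ℕ) : ∃ c : K, c ≠ 0 ∧ O.pt (i + n) t = c • O.pt i t := by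
  obtain ⟨c, hc, h⟩ := O.per (i * k + t)
  refine ⟨c, hc, ?_⟩
  unfold pt; rw [← h]; congr 1; ring

lemma pt_per' (i t : ℕ) : ∃ c : K, c ≠ 0 ∧ O.pt i (t + n * k) = c • O.pt i t := by
  obtain ⟨c, hc, h⟩ := O.per (i * k + t)
  refine ⟨c, hc, ?_⟩
  unfold pt; rw [← h]; congr 1; ring

lemma br_smul (c d : K) (x y : Fin 2 → K) : br (c • x) (d • y) = c * d * br x y := by
  simp only [br, Pi.smul_apply, smul_eq_mul]; ring

/-- valuation of the first product -/
def R (i j l r t : ℕ) : ℤᵐ⁰ := v (O.b i j t * O.b l r t)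

lemma R_succ (i j l r t : ℕ) : O.R i j l r (t + 1) =
    v (O.D t) ^ 2 * (O.w i j t * O.w l r t) ^ (O.m t - 1) * O.R i j l r t := by
  unfold R
  rw [b_succ, b_succ, mul_pow, ← v_h, ← v_h, ← map_pow, ← map_mul, ← map_mul, ← map_mul]
  congr 1
  ring

lemma R_pos {i j l r : ℕ} (hij : ¬ i ≡ j [MOD n]) (hlr : ¬ l ≡ r [MOD n]) (t : ℕ) :
    0 < O.R i j l r t :=
  zero_lt_iff.2 ((Valuation.ne_zero_iff v).2 (mul_ne_zero (O.b_ne hij t) (O.b_ne hlr t)))

lemma R_per (i j l r t : ℕ) : O.R i j l r (t + n * k) * O.R i l j r t = O.R i j l r t * O.R i l j r (t + n * k) := by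
  obtain ⟨ci, hci, hi⟩ := O.pt_per' i t
  obtain ⟨cj, hcj, hj⟩ := O.pt_per' j t
  obtain ⟨cl, hcl, hl⟩ := O.pt_per' l t
  obtain ⟨cr, hcr, hr⟩ := O.pt_per' r t
  unfold R b
  rw [hi, hj, hl, hr]
  simp only [br_smul]
  rw [← map_mul, ← map_mul]
  congr 1
  ring

/-- no strict inequality can occur along a periodic orbit -/
lemma no_strict {i j l r : ℕ} (hij : ¬ i ≡ j [MOD n]) (hlr : ¬ l ≡ r [MOD n])
    (hil : ¬ i ≡ l [MOD n]) (hjr : ¬ j ≡ r [MOD n]) (t : ℕ) :
    ¬ (O.w i j t * O.w l r t) ^ (O.m t - 1) < (O.w i l t * O.w j r t) ^ (O.m t - 1) := by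
  intro hlt
  set ρ : ℕ → ℤᵐ⁰ := fun s => O.R i j l r s / O.R i l j r s with hρ
  have hSpos : ∀ s, 0 < O.R i l j r s := O.R_pos hil hjr
  have hRpos : ∀ s, 0 < O.R i j l r s := O.R_pos hij hlr
  have hD : ∀ s, 0 < v (O.D s) ^ 2 := fun s =>
    pow_pos (zero_lt_iff.2 ((Valuation.ne_zero_iff v).2 (O.D_ne s))) _
  have hwpos : ∀ s, 0 < (O.w i l s * O.w j r s) ^ (O.m s - 1) := fun s =>
    pow_pos (mul_pos (O.w_pos (O.b_ne hil s)) (O.w_pos (O.b_ne hjr s))) _
  have hρs : ∀ s, ρ (s + 1) = ρ s * ((O.w i j s * O.w l r s) ^ (O.m s - 1) / (O.w i l s * O.w j r s) ^ (O.m s - 1)) := by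
    intro s
    simp only [hρ, R_succ]
    rw [mul_div_mul_comm, mul_div_mul_left _ _ (hD s).ne', mul_comm]
  have hρpos : ∀ s, 0 < ρ s := fun s => div_pos (hRpos s) (hSpos s)
  -- monotonicity below one
  have hmono : ∀ s, ρ s < 1 → ρ (s + 1) ≤ ρ s := by
    intro s hs
    rw [hρs s]
    have h1 : O.w i j s * O.w l r s ≤ O.w i l s * O.w j r s := by
      by_contra hcon
      have h2 := four_point (O.pt i s) (O.pt j s) (O.pt l s) (O.pt r s) (not_le.1 hcon)
      have h3 : O.R i l j r s < O.R i j l r s := h2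
      have h4 : ¬ ρ s < 1 := by
        rw [not_lt]
        exact (one_le_div₀ (hSpos s)).2 h3.le
      exact h4 hs
    have h2 : (O.w i j s * O.w l r s) ^ (O.m s - 1) / (O.w i l s * O.w j r s) ^ (O.m s - 1) ≤ 1 :=
      (div_le_one₀ (hwpos s)).2 (pow_le_pow_left₀ zero_le h1 _)
    calc ρ s * _ ≤ ρ s * 1 := by gcongr
      _ = ρ s := mul_one _
  have h0 : ρ t < 1 := by
    have h1 : O.w i j t * O.w l r t < O.w i l t * O.w j r t := lt_of_pow_lt_pow_left₀ _ zero_le hlt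
    have h2 := four_point (O.pt i t) (O.pt l t) (O.pt j t) (O.pt r t) h1
    exact (div_lt_one₀ (hSpos t)).2 h2
  have h1 : ρ (t + 1) < ρ t := by
    rw [hρs t]
    have h2 : (O.w i j t * O.w l r t) ^ (O.m t - 1) / (O.w i l t * O.w j r t) ^ (O.m t - 1) < 1 :=
      (div_lt_one₀ (hwpos t)).2 hlt
    calc ρ t * _ < ρ t * 1 := mul_lt_mul_of_pos_left h2 (hρpos t)
      _ = ρ t := mul_one _
  have h2 : ∀ s, ρ (t + 1 + s) ≤ ρ (t + 1) := by
    intro s
    induction s with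
    | zero => exact le_rfl
    | succ s ih =>
      have : ρ (t + 1 + s) < 1 := lt_of_le_of_lt ih (h1.trans h0)
      exact (hmono _ this).trans ih
  have h3 : ρ (t + n * k) = ρ t := by
    simp only [hρ]
    rw [div_eq_div_iff (hSpos _).ne' (hSpos _).ne']
    exact O.R_per i j l r t
  have hnk : 1 ≤ n * k := Nat.mul_pos O.n_pos O.k_pos
  have h4 := h2 (n * k - 1)
  rw [show t + 1 + (n * k - 1) = t + n * k by omega, h3] at h4
  exact absurd (lt_of_le_of_lt h4 h1) (lt_irrefl _)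

lemma pow_eq {i j l r : ℕ} (hij : ¬ i ≡ j [MOD n]) (hlr : ¬ l ≡ r [MOD n])
    (hil : ¬ i ≡ l [MOD n]) (hjr : ¬ j ≡ r [MOD n]) (t : ℕ) :
    (O.w i j t * O.w l r t) ^ (O.m t - 1) = (O.w i l t * O.w j r t) ^ (O.m t - 1) :=
  le_antisymm (not_lt.1 (O.no_strict hil hjr hij hlr t)) (not_lt.1 (O.no_strict hij hlr hil hjr t))

lemma w_eq {i j l r : ℕ} (hij : ¬ i ≡ j [MOD n]) (hlr : ¬ l ≡ r [MOD n])
    (hil : ¬ i ≡ l [MOD n]) (hjr : ¬ j ≡ r [MOD n]) (t : ℕ) (hm : 2 ≤ O.m t) :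
    O.w i j t * O.w l r t = O.w i l t * O.w j r t :=
  (pow_left_inj₀ zero_le zero_le (by omega)).1 (O.pow_eq hij hlr hil hjr t)

/-- the valuation of the cross-ratio is constant in time -/
lemma ratio_const {i j l r : ℕ} (hij : ¬ i ≡ j [MOD n]) (hlr : ¬ l ≡ r [MOD n])
    (hil : ¬ i ≡ l [MOD n]) (hjr : ¬ j ≡ r [MOD n]) (t : ℕ) :
    O.R i j l r t * O.R i l j r 0 = O.R i j l r 0 * O.R i l j r t := by
  induction t with
  | zero => rfl
  | succ t ih =>
    rw [R_succ, R_succ, O.pow_eq hij hlr hil hjr t]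
    calc v (O.D t) ^ 2 * (O.w i l t * O.w j r t) ^ (O.m t - 1) * O.R i j l r t * O.R i l j r 0
        = v (O.D t) ^ 2 * (O.w i l t * O.w j r t) ^ (O.m t - 1) * (O.R i j l r t * O.R i l j r 0) := by
          ac_rfl
      _ = _ := by rw [ih]; ac_rfl

/-- comparison of products does not depend on time -/
lemma lt_iff {i j l r : ℕ} (hil : ¬ i ≡ l [MOD n]) (hjr : ¬ j ≡ r [MOD n]) (t : ℕ) :
    O.R i j l r t < O.R i l j r t ↔ O.R i j l r 0 < O.R i l j r 0 := by
  by_cases hij : i ≡ j [MOD n]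
  · have h0 : ∀ s, O.R i j l r s = 0 := by
      intro s; unfold R; rw [(O.b_eq_zero i j s).2 hij, zero_mul, map_zero]
    rw [h0, h0]
    exact ⟨fun _ => O.R_pos hil hjr 0, fun _ => O.R_pos hil hjr t⟩
  by_cases hlr : l ≡ r [MOD n]
  · have h0 : ∀ s, O.R i j l r s = 0 := by
      intro s; unfold R; rw [(O.b_eq_zero l r s).2 hlr, mul_zero, map_zero]
    rw [h0, h0]
    exact ⟨fun _ => O.R_pos hil hjr 0, fun _ => O.R_pos hil hjr t⟩
  have h1 := O.ratio_const hij hlr hil hjr t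
  have p1 := O.R_pos hil hjr 0
  have p2 := O.R_pos hil hjr t
  constructor
  · intro h
    have h2 : O.R i j l r 0 * O.R i l j r t < O.R i l j r 0 * O.R i l j r t := by
      rw [← h1, mul_comm (O.R i l j r 0)]
      exact mul_lt_mul_of_pos_right h p1
    exact lt_of_mul_lt_mul_right h2 zero_le
  · intro h
    have h2 : O.R i j l r t * O.R i l j r 0 < O.R i l j r t * O.R i l j r 0 := by
      rw [h1, mul_comm (O.R i l j r t)]
      exact mul_lt_mul_of_pos_right h p2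
    exact lt_of_mul_lt_mul_right h2 zero_le

end Orb

end Pool.Agent.H504R2
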