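import Mathlib

set_option autoImplicit false

open IsDedekindDomain NumberField
open scoped WithZero

namespace Pool.Agent.H504R2

/-- Local data at a place: a valuation on `K` with `v p < 1`, whose residue field behaves like a
field with `q` elements. -/
structure IsPlace {K : Type} [Field K] (v : Valuation K ℤᵐ⁰) (p q : ℕ) : Prop where
  p_lt : v (p : K) < 1
  nat_le : ∀ n : ℕ, v (n : K) ≤ 1
  unit_pow : ∀ u : K, v u = 1 → v (u ^ (q - 1) - 1) < 1
  card_le : ∀ S : Finset K, (∀ x ∈ S, ∀ y ∈ S, x ≠ y → v (x - y) = 1) → S.card ≤ q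

theorem exists_place (K : Type) [Field K] [NumberField K] (p : ℕ) (hp : p.Prime) :
    ∃ (v : Valuation K ℤᵐ⁰) (f : ℕ), 1 ≤ f ∧ f ≤ Module.finrank ℚ K ∧ IsPlace v p (p ^ f) := by
  classical
  have hpu : Ideal.span {(p : 𝓞 K)} ≠ ⊤ := by
    intro h
    rw [Ideal.span_singleton_eq_top] at h
    have h1 : Ideal.absNorm (Ideal.span {(p : 𝓞 K)}) = 1 := by
      rw [Ideal.absNorm_eq_one_iff, Ideal.span_singleton_eq_top]; exact h
    rw [Ideal.absNorm_span_singleton] at h1
    have h2 : (Algebra.norm ℤ ((p : ℕ) : 𝓞 K)) = (p : ℤ) ^ Module.finrank ℤ (𝓞 K) := by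
      have := Algebra.norm_algebraMap (R := ℤ) (S := 𝓞 K) (p : ℤ)
      simpa using this
    rw [h2, Int.natAbs_pow, Int.natAbs_natCast, RingOfIntegers.rank] at h1
    have h3 : 0 < Module.finrank ℚ K := Module.finrank_pos
    have := Nat.one_lt_pow h3.ne' hp.one_lt
    omega
  obtain ⟨P, hPmax, hPle⟩ := Ideal.exists_le_maximal _ hpu
  have hpP : (p : 𝓞 K) ∈ P := hPle (Ideal.mem_span_singleton_self _)
  have hp0 : (p : 𝓞 K) ≠ 0 := by exact_mod_cast hp.ne_zero
  have hPbot : P ≠ ⊥ := by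
    rintro rfl
    exact hp0 (by simpa using hpP)
  let w : HeightOneSpectrum (𝓞 K) := ⟨P, hPmax.isPrime, hPbot⟩
  have hnorm : Ideal.absNorm P ∣ p ^ Module.finrank ℚ K := by
    have h1 := Ideal.absNorm_dvd_absNorm_of_le hPle
    rw [Ideal.absNorm_span_singleton] at h1
    have h2 : (Algebra.norm ℤ ((p : ℕ) : 𝓞 K)) = (p : ℤ) ^ Module.finrank ℤ (𝓞 K) := by
      have := Algebra.norm_algebraMap (R := ℤ) (S := 𝓞 K) (p : ℤ)
      simpa using this
    rwa [h2, Int.natAbs_pow, Int.natAbs_natCast, RingOfIntegers.rank] at h1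
  obtain ⟨f, hf, hfe⟩ := (Nat.dvd_prime_pow hp).1 hnorm
  have hf1 : 1 ≤ f := by
    rcases Nat.eq_zero_or_pos f with h0 | h0
    · rw [h0, pow_zero, Ideal.absNorm_eq_one_iff] at hfe
      exact absurd hfe hPmax.ne_top
    · exact h0
  have := hPmax
  letI : Field (𝓞 K ⧸ P) := Ideal.Quotient.field P
  have hcard : Nat.card (𝓞 K ⧸ P) = p ^ f := by
    rw [← hfe]; rfl
  have hfin : Finite (𝓞 K ⧸ P) := Nat.finite_of_card_ne_zero (by rw [hcard]; exact (pow_pos hp.pos f).ne')
  letI := Fintype.ofFinite (𝓞 K ⧸ P)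
  have hfc : Fintype.card (𝓞 K ⧸ P) = p ^ f := by rw [← Nat.card_eq_fintype_card]; exact hcard
  have hmem : ∀ r : 𝓞 K, w.valuation K (algebraMap (𝓞 K) K r) < 1 ↔ r ∈ P := fun r =>
    w.valuation_lt_one_iff_mem r
  have happ : ∀ x : K, w.valuation K x ≤ 1 → ∃ a : 𝓞 K, w.valuation K (algebraMap (𝓞 K) K a - x) < 1 := by
    intro x hx
    obtain ⟨a, ha⟩ := w.exists_valuation_sub_lt_of_integer hx 1
    exact ⟨a, by simpa using ha⟩
  refine ⟨w.valuation K, f, hf1, hf, ?_, ?_, ?_, ?_⟩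
  · have := (hmem p).2 hpP
    simpa using this
  · intro n
    have := w.valuation_le_one (K := K) (n : 𝓞 K)
    simpa using this
  · intro u hu
    obtain ⟨a, ha⟩ := happ u hu.le
    have hau : w.valuation K (algebraMap (𝓞 K) K a) = 1 := by
      have h1 : algebraMap (𝓞 K) K a = (algebraMap (𝓞 K) K a - u) + u := by ring
      rw [h1, Valuation.map_add_eq_of_lt_right _ (by rw [hu]; exact ha), hu]
    have haP : a ∉ P := by
      intro h; rw [← hmem] at h; rw [hau] at h; exact lt_irrefl _ h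
    have ha0 : (Ideal.Quotient.mk P a) ≠ 0 := by
      rwa [Ne, Ideal.Quotient.eq_zero_iff_mem]
    have h1 : (Ideal.Quotient.mk P a) ^ (p ^ f - 1) = 1 := by
      rw [← hfc]; exact FiniteField.pow_card_sub_one_eq_one _ ha0
    have h2 : a ^ (p ^ f - 1) - 1 ∈ P := by
      rw [← Ideal.Quotient.eq_zero_iff_mem, map_sub, map_pow, h1, map_one, sub_self]
    have h3 := (hmem _).2 h2
    rw [map_sub, map_pow, map_one] at h3
    have h4 : w.valuation K (u ^ (p ^ f - 1) - (algebraMap (𝓞 K) K a) ^ (p ^ f - 1)) < 1 := by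
      rw [← Commute.mul_geom_sum₂ (Commute.all _ _), map_mul]
      have h5 : w.valuation K (∑ i ∈ Finset.range (p ^ f - 1), u ^ i * (algebraMap (𝓞 K) K a) ^ (p ^ f - 1 - 1 - i)) ≤ 1 := by
        apply Valuation.map_sum_le
        intro i _
        rw [map_mul, map_pow, map_pow, hu, hau, one_pow, one_pow, one_mul]
      have h6 : w.valuation K (u - algebraMap (𝓞 K) K a) < 1 := by
        rw [Valuation.map_sub_swap]; exact ha
      calc _ ≤ w.valuation K (u - algebraMap (𝓞 K) K a) * 1 := by gcongr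
        _ < 1 := by rwa [mul_one]
    have h7 : u ^ (p ^ f - 1) - 1 = (u ^ (p ^ f - 1) - (algebraMap (𝓞 K) K a) ^ (p ^ f - 1)) + ((algebraMap (𝓞 K) K a) ^ (p ^ f - 1) - 1) := by ring
    rw [h7]
    exact Valuation.map_add_lt _ h4 h3
  · intro S hS
    rcases S.eq_empty_or_nonempty with rfl | ⟨x0, hx0⟩
    · simp
    have hint : ∀ x ∈ S, w.valuation K (x - x0) ≤ 1 := by
      intro x hx
      by_cases h : x = x0
      · simp [h]
      · exact (hS x hx x0 hx0 h).le
    have hch : ∀ x : K, ∃ a : 𝓞 K, x ∈ S → w.valuation K (algebraMap (𝓞 K) K a - (x - x0)) < 1 := by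
      intro x
      by_cases hx : x ∈ S
      · obtain ⟨a, ha⟩ := happ _ (hint x hx)
        exact ⟨a, fun _ => ha⟩
      · exact ⟨0, fun h => absurd h hx⟩
    choose g hg using hch
    have hinj : Set.InjOn (fun x => Ideal.Quotient.mk P (g x)) S := by
      intro x hx y hy hxy
      by_contra hne
      have h1 := hS x hx y hy hne
      have h2 : g x - g y ∈ P := Ideal.Quotient.eq.1 hxy
      have h3 := (hmem _).2 h2
      rw [map_sub] at h3
      have h4 : x - y = (algebraMap (𝓞 K) K (g x) - algebraMap (𝓞 K) K (g y))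
          - (algebraMap (𝓞 K) K (g x) - (x - x0)) + (algebraMap (𝓞 K) K (g y) - (y - x0)) := by ring
      have h5 : w.valuation K (x - y) < 1 := by
        rw [h4]
        exact Valuation.map_add_lt _ (Valuation.map_sub_lt _ h3 (hg x hx)) (hg y hy)
      rw [h1] at h5
      exact lt_irrefl _ h5
    have := Finset.card_le_card_of_injOn (t := Finset.univ) (fun x => Ideal.Quotient.mk P (g x)) (fun _ _ => Finset.mem_univ _) hinj
    rwa [Finset.card_univ, hfc] at this

end Pool.Agent.H504R2
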