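import Pool.Agent.H504R2.Cluster

set_option autoImplicit false
set_option linter.unusedSectionVars false
set_option linter.unusedVariables false

open Finset
open scoped WithZero Classical

namespace Pool.Agent.H504R2

variable {K : Type} [Field K] {v : Valuation K ℤᵐ⁰} {p q k n : ℕ}

namespace Orb

variable (O : Orb v p q k n)

variable [NeZero n]

lemma child_ssubset {x : ZMod n} {C : Finset (ZMod n)} (hx : x ∉ C) {δ : ℤᵐ⁰}
    (hδ : O.IsMaxF x C δ) {a : ZMod n} (ha : a ∈ C) :
    (C.filter fun b => v (O.F x a b) < δ) ⊂ C := by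
  have hne : ∀ y ∈ C, y ≠ x := by rintro y hy rfl; exact hx hy
  obtain ⟨hδ0, hδ1, c1, hc1, c2, hc2, hδ2⟩ := hδ
  rw [Finset.ssubset_iff_of_subset (filter_subset _ _)]
  by_contra hcon
  push Not at hcon
  have e1 := (mem_filter.1 (hcon c1 hc1)).2
  have e2 := (mem_filter.1 (hcon c2 hc2)).2
  have e3 := O.vF_le (hne c1 hc1) (hne a ha) (hne c2 hc2)
  rw [hδ2, vF_comm O x a c1] at e3
  exact absurd (lt_of_le_of_lt e3 (max_lt e1 e2)) (lt_irrefl _)

/-- the child of `C` containing `a` -/
noncomputable def ch (C : Finset (ZMod n)) (a : ZMod n) : Finset (ZMod n) := C.filter fun b => O.rel C a b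

lemma ch_eq {x : ZMod n} {C : Finset (ZMod n)} (hCl : O.IsClus C) (hx : x ∉ C) {δ : ℤᵐ⁰}
    (hδ : O.IsMaxF x C δ) {a : ZMod n} (ha : a ∈ C) :
    O.ch C a = C.filter fun b => v (O.F x a b) < δ := by
  unfold ch
  apply filter_congr
  intro b hb
  exact O.rel_iff hCl hx hδ ha hb

lemma ch_isClus {x : ZMod n} {C : Finset (ZMod n)} (hCl : O.IsClus C) (hx : x ∉ C)
    (hC : 2 ≤ C.card) {a : ZMod n} (ha : a ∈ C) : O.IsClus (O.ch C a) := by
  obtain ⟨δ, hδ⟩ := O.exists_maxF hx hC
  rw [O.ch_eq hCl hx hδ ha]; exact O.child_isClus hCl hx hδ ha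

lemma ch_ssubset {x : ZMod n} {C : Finset (ZMod n)} (hCl : O.IsClus C) (hx : x ∉ C)
    (hC : 2 ≤ C.card) {a : ZMod n} (ha : a ∈ C) : O.ch C a ⊂ C := by
  obtain ⟨δ, hδ⟩ := O.exists_maxF hx hC
  rw [O.ch_eq hCl hx hδ ha]; exact O.child_ssubset hx hδ ha

lemma rel_refl {C : Finset (ZMod n)} (hC : 2 ≤ C.card) {a : ZMod n} (ha : a ∈ C) : O.rel C a a := by
  refine ⟨{a}, O.isClus_singleton a, ?_, mem_singleton_self a, mem_singleton_self a⟩
  rw [Finset.ssubset_iff_subset_ne]
  refine ⟨singleton_subset_iff.2 ha, ?_⟩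
  intro h; rw [← h, card_singleton] at hC; omega

lemma rel_symm {C : Finset (ZMod n)} {a b : ZMod n} (h : O.rel C a b) : O.rel C b a := by
  obtain ⟨D, h1, h2, h3, h4⟩ := h
  exact ⟨D, h1, h2, h4, h3⟩

lemma rel_trans {x : ZMod n} {C : Finset (ZMod n)} (hCl : O.IsClus C) (hx : x ∉ C)
    (hC : 2 ≤ C.card) {a b c : ZMod n} (ha : a ∈ C) (hb : b ∈ C) (hc : c ∈ C)
    (h1 : O.rel C a b) (h2 : O.rel C b c) : O.rel C a c := by
  have hne : ∀ y ∈ C, y ≠ x := by rintro y hy rfl; exact hx hy
  obtain ⟨δ, hδ⟩ := O.exists_maxF hx hC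
  rw [O.rel_iff hCl hx hδ ha hb] at h1
  rw [O.rel_iff hCl hx hδ hb hc] at h2
  rw [O.rel_iff hCl hx hδ ha hc]
  exact lt_of_le_of_lt (O.vF_le (hne a ha) (hne b hb) (hne c hc)) (max_lt h1 h2)

lemma image_ch_card {x : ZMod n} {C : Finset (ZMod n)} (hCl : O.IsClus C) (hx : x ∉ C)
    (hC : 2 ≤ C.card) : (C.image (O.ch C)).card ≤ q := by
  obtain ⟨u, hu, hinj, him⟩ := Finset.exists_subset_injOn_image_eq_of_surjOn (f := O.ch C) (C : Set (ZMod n))
    (C.image (O.ch C)) (by intro y hy; simpa using hy)
  rw [← him, card_image_of_injOn hinj]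
  apply O.rel_card hCl hx hC (T := u) (by intro y hy; exact hu hy)
  intro a ha b hb hab hrel
  apply hab
  apply hinj ha hb
  have haC : a ∈ C := hu ha
  have hbC : b ∈ C := hu hb
  unfold ch
  apply filter_congr
  intro c hc
  constructor
  · intro h; exact O.rel_trans hCl hx hC hbC haC hc (O.rel_symm hrel) h
  · intro h; exact O.rel_trans hCl hx hC haC hbC hc hrel h

/-- the finite set underlying a subgroup -/
noncomputable def fs (H : AddSubgroup (ZMod n)) : Finset (ZMod n) := univ.filter fun a => a ∈ H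

omit [NeZero n] in
lemma q_pos (O : Orb v p q k n) : 1 ≤ q := by
  have := O.hv.card_le {0} (by
    intro x hx y hy hxy
    rw [mem_singleton] at hx hy
    exact absurd (hx.trans hy.symm) hxy)
  simpa using this

lemma mem_fs {H : AddSubgroup (ZMod n)} {a : ZMod n} : a ∈ fs H ↔ a ∈ H := by
  unfold fs; simp

/-- all cosets of `H` are clusters -/
def Good (H : AddSubgroup (ZMod n)) : Prop :=
  ∀ a b c d : ZMod n, a - b ∈ H → a - c ∉ H → a - d ∉ H → O.sep a b c d

lemma good_bot : O.Good ⊥ := by
  intro a b c d hab hac had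
  have h1 : a = b := sub_eq_zero.1 (by simpa using hab)
  subst h1
  exact O.isClus_singleton a a (mem_singleton_self a) a (mem_singleton_self a) c
    (by rw [mem_singleton]; rintro rfl; simp at hac) d (by rw [mem_singleton]; rintro rfl; simp at had)

lemma good_of_clus {H : AddSubgroup (ZMod n)} (h : O.IsClus (fs H)) : O.Good H := by
  intro a b c d hab hac had
  have hca : c - a ∉ H := fun h' => hac (by have := H.neg_mem h'; simpa using this)
  have hda : d - a ∉ H := fun h' => had (by have := H.neg_mem h'; simpa using this)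
  have hba : b - a ∈ H := by have := H.neg_mem hab; simpa using this
  have h1 := h 0 (mem_fs.2 H.zero_mem) (b - a) (mem_fs.2 hba) (c - a) (fun h' => hca (mem_fs.1 h'))
    (d - a) (fun h' => hda (mem_fs.1 h'))
  have h2 : (0 : ZMod n) ≠ c - a := by intro h'; rw [← h'] at hca; exact hca H.zero_mem
  have h3 : b - a ≠ d - a := by intro h'; rw [h'] at hba; exact hda hba
  have := (O.sep_add h2 h3 a).2 h1
  simpa using this

lemma clus_of_good {H : AddSubgroup (ZMod n)} (h : O.Good H) : O.IsClus (fs H) := by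
  intro a ha b hb c hc d hd
  rw [mem_fs] at ha hb hc hd
  apply h a b c d
  · exact H.sub_mem ha hb
  · intro h'; apply hc; have := H.sub_mem ha h'; simpa using this
  · intro h'; apply hd; have := H.sub_mem ha h'; simpa using this

/-- existence of a good proper subgroup of small index -/
theorem top_level (hn : 2 ≤ n) :
    ∃ H : AddSubgroup (ZMod n), O.Good H ∧ 2 * (fs H).card ≤ n ∧ n ≤ (q + 1) * (fs H).card := by
  have hcardn : (univ : Finset (ZMod n)).card = n := by rw [card_univ, ZMod.card]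
  -- clusters of size at most n/2
  set 𝒞 : Finset (Finset (ZMod n)) := univ.filter (fun S => O.IsClus S ∧ 2 * S.card ≤ n) with h𝒞
  have hne : 𝒞.Nonempty := ⟨{0}, by
    rw [h𝒞, mem_filter]; exact ⟨mem_univ _, O.isClus_singleton 0, by simpa using hn⟩⟩
  obtain ⟨S, hS, hmax⟩ := exists_max_image 𝒞 Finset.card hne
  have hmax' : ∀ T, O.IsClus T → 2 * T.card ≤ n → T.card ≤ S.card := fun T h1 h2 =>
    hmax T (by rw [h𝒞, mem_filter]; exact ⟨mem_univ _, h1, h2⟩)
  rw [h𝒞, mem_filter] at hS
  obtain ⟨-, hSc, hS2⟩ := hS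
  have hS1 : 1 ≤ S.card := by
    have := hmax' {0} (O.isClus_singleton 0) (by simpa using hn)
    simpa using this
  obtain ⟨a0, ha0⟩ := card_pos.1 (by omega : 0 < S.card)
  -- translates are equal or disjoint
  have hblock : ∀ g x, x ∈ S → x ∈ tr g S → tr g S = S := by
    intro g x hx hx'
    by_contra hcon
    have hc := card_tr g S
    have h1 : ¬ S ⊆ tr g S := fun h => hcon (eq_of_subset_of_card_le h hc.le).symm
    have h2 : ¬ tr g S ⊆ S := fun h => hcon (eq_of_subset_of_card_le h hc.ge)
    rw [not_subset] at h1 h2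
    obtain ⟨y, hy, hy'⟩ := h1
    obtain ⟨z, hz', hz⟩ := h2
    have h3 : (S ∪ tr g S).card < n := by
      have h4 := card_union_add_card_inter S (tr g S)
      have h5 : 0 < (S ∩ tr g S).card := card_pos.2 ⟨x, mem_inter.2 ⟨hx, hx'⟩⟩
      omega
    obtain ⟨w, hw⟩ : ∃ w, w ∉ S ∪ tr g S := by
      by_contra hcon'
      push Not at hcon'
      rw [eq_univ_of_forall hcon', hcardn] at h3
      exact lt_irrefl _ h3
    rw [mem_union, not_or] at hw
    exact O.crossing hSc (O.isClus_tr hSc g) hx hx' hy hy' hz hz' hw.1 hw.2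
  -- the stabiliser
  let H : AddSubgroup (ZMod n) :=
    { carrier := {g | tr g S = S}
      zero_mem' := by
        show tr 0 S = S
        ext a; rw [mem_tr, sub_zero]
      add_mem' := by
        intro a b ha hb
        show tr (a + b) S = S
        have ha' : tr a S = S := ha
        have hb' : tr b S = S := hb
        ext x
        rw [mem_tr, show x - (a + b) = (x - b) - a by ring, ← mem_tr, ha', ← mem_tr, hb']
      neg_mem' := by
        intro a ha
        show tr (-a) S = S
        have ha' : tr a S = S := ha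
        ext x
        rw [mem_tr, ← ha', mem_tr]
        simp only [sub_neg_eq_add, add_sub_cancel_right]
        rw [ha'] }
  have hHmem : ∀ g, g ∈ H ↔ tr g S = S := fun g => Iff.rfl
  have hSH : ∀ x, x ∈ S ↔ x - a0 ∈ H := by
    intro x
    rw [hHmem]
    constructor
    · intro hx
      apply hblock _ x hx
      rw [mem_tr]; simpa using ha0
    · intro h
      rw [← h, mem_tr]; simpa using ha0
  have hfs : fs H = tr (-a0) S := by
    ext x
    rw [mem_fs, mem_tr, hSH]
    simp
  have hcard : (fs H).card = S.card := by rw [hfs, card_tr]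
  refine ⟨H, ?_, by rw [hcard]; exact hS2, ?_⟩
  · apply O.good_of_clus
    rw [hfs]; exact O.isClus_tr hSc _
  · rw [hcard]
    have hq := O.q_pos
    set C := Sᶜ with hC
    have hCc : C.card + S.card = n := by
      rw [hC, card_compl, ZMod.card]
      have := card_le_univ S
      rw [ZMod.card] at this
      omega
    by_cases h2 : 2 ≤ C.card
    · have hCcl : O.IsClus C := O.isClus_compl hSc
      have hxC : a0 ∉ C := by rw [hC, mem_compl, not_not]; exact ha0
      have hDle : ∀ c ∈ C, (O.ch C c).card ≤ S.card := by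
        intro c hc
        have h3 := O.ch_isClus hCcl hxC h2 hc
        have h4 := card_lt_card (O.ch_ssubset hCcl hxC h2 hc)
        by_contra hcon
        rw [not_le] at hcon
        by_cases h5 : 2 * (O.ch C c).card ≤ n
        · have := hmax' _ h3 h5; omega
        · have h6 : (O.ch C c)ᶜ.card + (O.ch C c).card = n := by
            rw [card_compl, ZMod.card]
            have := card_le_univ (O.ch C c)
            rw [ZMod.card] at this
            omega
          have h7 := hmax' _ (O.isClus_compl h3) (by omega)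
          omega
      have h8 : C.card ≤ S.card * (C.image (O.ch C)).card := by
        apply card_le_mul_card_image
        intro b hb
        rw [mem_image] at hb
        obtain ⟨c, hc, rfl⟩ := hb
        refine le_trans (card_le_card ?_) (hDle c hc)
        intro a ha
        rw [mem_filter] at ha
        rw [← ha.2]
        exact mem_filter.2 ⟨ha.1, O.rel_refl h2 ha.1⟩
      have h9 := O.image_ch_card hCcl hxC h2
      calc n = C.card + S.card := hCc.symm
        _ ≤ S.card * q + S.card := by
          have := Nat.mul_le_mul_left S.card h9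
          omega
        _ = (q + 1) * S.card := by ring
    · have : 2 * S.card ≤ (q + 1) * S.card := Nat.mul_le_mul_right _ (by omega)
      omega

/-- passing from a good subgroup to a smaller one -/
theorem next_level {H : AddSubgroup (ZMod n)} (hG : O.Good H) (hT : 2 * (fs H).card ≤ n)
    (hB : 2 ≤ (fs H).card) :
    ∃ H' : AddSubgroup (ZMod n), H' ≤ H ∧ O.Good H' ∧ (fs H').card < (fs H).card ∧
      (fs H).card ≤ q * (fs H').card := by
  have hcardn : (univ : Finset (ZMod n)).card = n := by rw [card_univ, ZMod.card]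
  set C := fs H with hC
  have hCcl : O.IsClus C := O.clus_of_good hG
  obtain ⟨x, hx⟩ : ∃ x, x ∉ C := by
    by_contra hcon
    push Not at hcon
    rw [eq_univ_of_forall hcon, hcardn] at hT
    have := O.n_pos
    omega
  have hrel_tr : ∀ g ∈ H, ∀ a b, O.rel C a b → O.rel C (a + g) (b + g) := by
    rintro g hg a b ⟨D, hD, hDC, haD, hbD⟩
    refine ⟨tr g D, O.isClus_tr hD g, ?_, ?_, ?_⟩
    · rw [Finset.ssubset_iff_subset_ne]
      refine ⟨?_, ?_⟩
      · intro y hy
        rw [mem_tr] at hy
        have h1 := hDC.1 hy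
        rw [hC, mem_fs] at h1 ⊢
        have := H.add_mem h1 hg
        simpa using this
      · intro h
        have := card_lt_card hDC
        rw [← h, card_tr] at this
        exact lt_irrefl _ this
    · rw [mem_tr]; simpa using haD
    · rw [mem_tr]; simpa using hbD
  have h0C : (0 : ZMod n) ∈ C := by rw [hC, mem_fs]; exact H.zero_mem
  let H' : AddSubgroup (ZMod n) :=
    { carrier := {a | a ∈ H ∧ O.rel C a 0}
      zero_mem' := ⟨H.zero_mem, O.rel_refl hB h0C⟩
      add_mem' := by
        rintro a b ⟨ha, ha'⟩ ⟨hb, hb'⟩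
        refine ⟨H.add_mem ha hb, ?_⟩
        have h1 := hrel_tr b hb a 0 ha'
        rw [zero_add] at h1
        exact O.rel_trans hCcl hx hB (mem_fs.2 (H.add_mem ha hb)) (mem_fs.2 hb) h0C h1 hb'
      neg_mem' := by
        rintro a ⟨ha, ha'⟩
        refine ⟨H.neg_mem ha, ?_⟩
        have h1 := hrel_tr (-a) (H.neg_mem ha) a 0 ha'
        rw [add_neg_cancel, zero_add] at h1
        exact O.rel_symm h1 }
  have hH'mem : ∀ a, a ∈ H' ↔ a ∈ H ∧ O.rel C a 0 := fun a => Iff.rfl
  have hfs' : fs H' = O.ch C 0 := by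
    ext a
    rw [mem_fs, hH'mem]
    unfold ch
    rw [mem_filter, hC, mem_fs]
    exact ⟨fun h => ⟨h.1, O.rel_symm h.2⟩, fun h => ⟨h.1, O.rel_symm h.2⟩⟩
  refine ⟨H', fun a ha => ha.1, ?_, ?_, ?_⟩
  · apply O.good_of_clus
    rw [hfs']; exact O.ch_isClus hCcl hx hB h0C
  · rw [hfs']; exact card_lt_card (O.ch_ssubset hCcl hx hB h0C)
  · have h8 : C.card ≤ (fs H').card * (C.image (O.ch C)).card := by
      apply card_le_mul_card_image
      intro b hb
      rw [mem_image] at hb
      obtain ⟨c, hc, rfl⟩ := hb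
      have hcH : c ∈ H := mem_fs.1 hc
      have h1 : (tr c (fs H')).card = (fs H').card := card_tr _ _
      rw [← h1]
      apply card_le_card
      intro a ha
      rw [mem_filter] at ha
      have ha' : a ∈ O.ch C c := by
        rw [← ha.2]; exact mem_filter.2 ⟨ha.1, O.rel_refl hB ha.1⟩
      unfold ch at ha'
      rw [mem_filter] at ha'
      rw [mem_tr, mem_fs, hH'mem]
      have haH : a ∈ H := mem_fs.1 ha.1
      refine ⟨H.sub_mem haH hcH, ?_⟩
      have h2 := hrel_tr (-c) (H.neg_mem hcH) c a ha'.2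
      rw [add_neg_cancel, ← sub_eq_add_neg] at h2
      exact O.rel_symm h2
    have h9 := O.image_ch_card hCcl hx hB
    calc C.card ≤ (fs H').card * (C.image (O.ch C)).card := h8
      _ ≤ (fs H').card * q := Nat.mul_le_mul_left _ h9
      _ = q * (fs H').card := by ring

/-- subgroups of `ZMod n` are generated by divisors -/
theorem exists_gen (H : AddSubgroup (ZMod n)) :
    ∃ e : ℕ, 0 < e ∧ e ∣ n ∧ (∀ i : ℕ, (i : ZMod n) ∈ H ↔ e ∣ i) ∧ (fs H).card * e = n := by
  have hn : 0 < n := Nat.pos_of_ne_zero (NeZero.ne n)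
  have hex : ∃ e : ℕ, 0 < e ∧ (e : ZMod n) ∈ H := ⟨n, hn, by simp⟩
  set e := Nat.find hex with he
  obtain ⟨he0, heH⟩ := Nat.find_spec hex
  rw [← he] at he0 heH
  have hmul : ∀ j : ℕ, ((e * j : ℕ) : ZMod n) ∈ H := by
    intro j
    induction j with
    | zero => simp
    | succ j ih =>
      rw [mul_add, mul_one, Nat.cast_add]
      exact H.add_mem ih heH
  have hiff : ∀ i : ℕ, (i : ZMod n) ∈ H ↔ e ∣ i := by
    intro i
    constructor
    · intro hi
      by_contra hcon
      have h1 : 0 < i % e := Nat.pos_of_ne_zero fun h => hcon (Nat.dvd_of_mod_eq_zero h)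
      have h2 : ((i % e : ℕ) : ZMod n) ∈ H := by
        have h3 : (i : ZMod n) = ((i % e : ℕ) : ZMod n) + ((e * (i / e) : ℕ) : ZMod n) := by
          rw [← Nat.cast_add, Nat.mod_add_div]
        rw [h3] at hi
        have := H.sub_mem hi (hmul (i / e))
        simpa using this
      have h4 := Nat.find_min hex (m := i % e) (by rw [← he]; exact Nat.mod_lt _ he0)
      exact h4 ⟨h1, h2⟩
    · rintro ⟨j, rfl⟩; exact hmul j
  have hen : e ∣ n := (hiff n).1 (by simp)
  refine ⟨e, he0, hen, hiff, ?_⟩
  obtain ⟨s, hs⟩ := hen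
  have h1 : fs H = (range s).image (fun j => ((e * j : ℕ) : ZMod n)) := by
    ext a
    rw [mem_fs, mem_image]
    constructor
    · intro ha
      have h2 : e ∣ a.val := (hiff a.val).1 (by rwa [ZMod.natCast_zmod_val])
      obtain ⟨j, hj⟩ := h2
      refine ⟨j, ?_, ?_⟩
      · rw [mem_range]
        have := ZMod.val_lt a
        rw [hj, hs] at this
        exact lt_of_mul_lt_mul_left this (Nat.zero_le _)
      · rw [← hj, ZMod.natCast_zmod_val]
    · rintro ⟨j, -, rfl⟩; exact hmul j
  rw [h1, card_image_of_injOn, card_range, hs, mul_comm]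
  intro a ha b hb hab
  rw [mem_coe, mem_range] at ha hb
  have h2 := congrArg ZMod.val hab
  simp only at h2
  rw [ZMod.val_natCast, ZMod.val_natCast, Nat.mod_eq_of_lt, Nat.mod_eq_of_lt] at h2
  · exact Nat.eq_of_mul_eq_mul_left he0 h2
  · rw [hs]; exact Nat.mul_lt_mul_of_pos_left hb he0
  · rw [hs]; exact Nat.mul_lt_mul_of_pos_left ha he0

end Orb

end Pool.Agent.H504R2
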